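import Pool.Agent.Lib.H72O.D

/-! # H72O, chunk H2 -/

set_option autoImplicit false

open scoped Quaternion

noncomputable section

namespace H72O

open H72R H72G Filter

/-- (H2, M) PROOF (compare `H72R.sigma_le` in `H72R/K.lean`, lines with `hemb`, `hrc`, `hrange`). For `0 ≤ r` choose
`σ r` with `R (φ r x) = φ (σ r) (R x)`, `σ 0 = 0`, `0 < σ r` for `0 < r` (`hp`). By `no_period hm`, `σ t = s`, and for
`0 ≤ r < r'` we get `σ r < σ r'` (apply `hp` at `φ r x`, time `r' - r`, and `no_period`). So `σ` maps `[0,t]` into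
`[0,s]`. The map `p : v ↦ φ v (R x)` on `Set.Icc 0 s` is a closed embedding (compact, injective by `no_period`), and
`p ∘ σ = fun r => R (φ r x)` is continuous on `Set.Icc 0 t`, so `σ : Set.Icc 0 t → Set.Icc 0 s` is continuous
(`Topology.IsEmbedding.continuous_iff`). Intermediate value theorem: `σ r = u` for some `r`. (Case `t = 0`: then
`s = 0 = u`, `r = 0`.) -/
theorem ivt {φ : Flow ℝ S3} (hm : MinimalFlow φ) {R : S3 → S3} (hR : Continuous R) (hp : PreservesOrbits φ R)
    {x : S3} {t s u : ℝ} (ht : 0 ≤ t) (h : R (φ t x) = φ s (R x)) (hu : 0 ≤ u) (hus : u ≤ s) :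
    ∃ r, 0 ≤ r ∧ r ≤ t ∧ R (φ r x) = φ u (R x) := by
  have h0 : ∀ r : ℝ, ∃ v : ℝ, 0 ≤ r → 0 ≤ v ∧ R (φ r x) = φ v (R x) := by
    intro r
    by_cases hr : 0 ≤ r
    · rcases eq_or_lt_of_le hr with h1 | h1
      · refine ⟨0, fun _ => ⟨le_rfl, ?_⟩⟩
        rw [← h1, Flow.map_zero_apply, Flow.map_zero_apply]
      · obtain ⟨v, hv, h2⟩ := hp x r h1
        exact ⟨v, fun _ => ⟨hv.le, h2⟩⟩
    · exact ⟨0, fun h1 => absurd h1 hr⟩
  choose σ hσ using h0
  have hmono : ∀ r r', 0 ≤ r → r < r' → σ r < σ r' := by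
    intro r r' hr hrr
    obtain ⟨v, hv, h1⟩ := hp (φ r x) (r' - r) (by linarith)
    rw [← Flow.map_add, sub_add_cancel, (hσ r' (by linarith)).2, (hσ r hr).2, ← Flow.map_add] at h1
    have := no_period hm (R x) h1
    linarith
  have hle : ∀ r, 0 ≤ r → r ≤ t → σ r ≤ σ t := by
    intro r hr hrt
    rcases eq_or_lt_of_le hrt with h1 | h1
    · rw [h1]
    · exact (hmono r t hr h1).le
  have hσ0 : σ 0 = 0 := by
    have h1 := (hσ 0 le_rfl).2
    rw [Flow.map_zero_apply] at h1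
    have h2 : φ (0 : ℝ) (R x) = φ (σ 0) (R x) := by rw [Flow.map_zero_apply, ← h1]
    exact (no_period hm (R x) h2).symm
  have hσt : σ t = s := no_period hm (R x) (by rw [← (hσ t ht).2, h])
  set p : Set.Icc (0 : ℝ) (σ t) → S3 := fun v => φ v.1 (R x) with hpdef
  have hpc : Continuous p := φ.continuous continuous_subtype_val continuous_const
  have hpi : Function.Injective p := fun v w hvw => Subtype.ext (no_period hm (R x) hvw)
  have hemb : Topology.IsClosedEmbedding p := hpc.isClosedEmbedding hpi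
  set q : Set.Icc (0 : ℝ) t → Set.Icc (0 : ℝ) (σ t) :=
    fun r => ⟨σ r.1, (hσ r.1 r.2.1).1, hle r.1 r.2.1 r.2.2⟩ with hq
  have hrc : Continuous q := by
    rw [hemb.isEmbedding.continuous_iff]
    have h7 : p ∘ q = fun r : Set.Icc (0 : ℝ) t => R (φ r.1 x) := by
      funext r
      exact (hσ r.1 r.2.1).2.symm
    rw [h7]
    exact hR.comp (φ.continuous continuous_subtype_val continuous_const)
  have hrange : u ∈ Set.range fun r => (q r).1 := by
    have hpre : PreconnectedSpace (Set.Icc (0 : ℝ) t) :=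
      isPreconnected_iff_preconnectedSpace.1 isPreconnected_Icc
    refine mem_range_of_exists_le_of_exists_ge (continuous_subtype_val.comp hrc)
      ⟨⟨0, le_rfl, ht⟩, ?_⟩ ⟨⟨t, ht, le_rfl⟩, ?_⟩
    · change σ 0 ≤ u
      rw [hσ0]
      exact hu
    · change u ≤ σ t
      rw [hσt]
      exact hus
  obtain ⟨r, hr⟩ := hrange
  refine ⟨r.1, r.2.1, r.2.2, ?_⟩
  have h9 : σ r.1 = u := hr
  rw [(hσ r.1 r.2.1).2, h9]

end H72O
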