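import Pool.Agent.Lib.H72G.F3

/-! # H72O: isometries which map the orbits of a minimal flow on the 3-sphere to orbits, definitions -/

set_option autoImplicit false

open scoped Quaternion

noncomputable section

namespace H72O

open H72R H72G Filter

/-- Continuous convergence of maps of the sphere. -/
def Conv (R : ℕ → S3 → S3) (R' : S3 → S3) : Prop :=
  ∀ (z : ℕ → S3) (z' : S3), Tendsto z atTop (nhds z') → Tendsto (fun n => R n (z n)) atTop (nhds (R' z'))

/-- The restriction to the sphere of a linear map which preserves the norm. -/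
def rs (A : L) (hA : ∀ v, ‖A v‖ = ‖v‖) (x : S3) : S3 :=
  ⟨A x.1, mem_sphere_zero_iff_norm.2 (by rw [hA, norm_S3])⟩

theorem rs_coe (A : L) (hA : ∀ v, ‖A v‖ = ‖v‖) (x : S3) : (rs A hA x).1 = A x.1 := rfl

theorem rs_cont (A : L) (hA : ∀ v, ‖A v‖ = ‖v‖) : Continuous (rs A hA) :=
  (A.continuous.comp continuous_subtype_val).subtype_mk _

theorem A_inj {A : L} (hA : ∀ v, ‖A v‖ = ‖v‖) {u v : E} (h : A u = A v) : u = v := by
  have : ‖u - v‖ = 0 := by rw [← hA, map_sub, h, sub_self, norm_zero]
  exact sub_eq_zero.1 (norm_eq_zero.1 this)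

theorem rs_inj (A : L) (hA : ∀ v, ‖A v‖ = ‖v‖) : Function.Injective (rs A hA) := fun x y h =>
  Subtype.ext (A_inj hA (congrArg Subtype.val h))

theorem conv_rs {A : ℕ → L} {A' : L} (hA : ∀ n v, ‖A n v‖ = ‖v‖) (hA' : ∀ v, ‖A' v‖ = ‖v‖)
    (hl : Tendsto A atTop (nhds A')) : Conv (fun n => rs (A n) (hA n)) (rs A' hA') := by
  intro z z' hz
  rw [tendsto_subtype_rng]
  have h1 : Continuous fun p : L × E => p.1 p.2 := by fun_prop
  have h2 : Tendsto (fun n => (A n, (z n).1)) atTop (nhds (A', z'.1)) :=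
    hl.prodMk_nhds ((continuous_subtype_val.tendsto z').comp hz)
  exact (h1.tendsto (A', z'.1)).comp h2

/-- `A` preserves the norm and its restriction to the sphere maps orbits to orbits and preserves their direction. -/
def Ocom (φ : Flow ℝ S3) (A : L) : Prop := ∃ hA : ∀ v, ‖A v‖ = ‖v‖, PreservesOrbits φ (rs A hA)

/-- `A` preserves the norm and its restriction to the sphere maps orbits to orbits and reverses their direction. -/
def Orev (φ : Flow ℝ S3) (A : L) : Prop := ∃ hA : ∀ v, ‖A v‖ = ‖v‖, ReversesOrbits φ (rs A hA)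

end H72O
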