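import Pool.Agent.Lib.H72O.D

/-! # H72O, chunk Q3 -/

set_option autoImplicit false

open scoped Quaternion

noncomputable section

namespace H72O

open H72R H72G Filter

/-- (Q3, S-M) PROOF. Apply `H72R.main` (in `H72R/N.lean`; see also `Results/MP_d70c8b_an/Reversible.lean` for its
statement) with `R = rs A _`, `m = 1`, and the matrix `M` of `A` in the standard basis
(`A = Matrix.toEuclideanCLM (𝕜 := ℝ) M`, `M = (Matrix.toEuclideanCLM (𝕜 := ℝ)).symm A`, see `H72G.clm_apply` in
`H72G/F2.lean`; `M.transpose * M = 1` from the norm: `star A * A = 1`). `ConjMat (R^[1]) M` with `h = k = id`.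
Part (2), first conclusion: `M = 1 ∨ ∀ v ≠ 0, M.mulVec v ≠ v`; the second is excluded by `h`, and `M = 1` gives
`A = 1`. -/
theorem ocom_fixed {φ : Flow ℝ S3} (hm : MinimalFlow φ) {A : L} (hA : Ocom φ A) {v : E} (hv : v ≠ 0)
    (h : A v = v) : A = 1 := by
  obtain ⟨hA, hp⟩ := hA
  obtain ⟨M, hM⟩ : ∃ M : Matrix (Fin 4) (Fin 4) ℝ, Matrix.toEuclideanCLM (𝕜 := ℝ) M = A :=
    ⟨(Matrix.toEuclideanCLM (𝕜 := ℝ)).symm A, by simp⟩
  have hMM : M.transpose * M = 1 := by
    have h1 : star A * A = 1 := by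
      ext1 w
      refine ext_inner_right ℝ fun z => ?_
      have h2 : inner ℝ (A w) (A z) = inner ℝ w z := by
        let f : E →ₗᵢ[ℝ] E := ⟨(A : E →ₗ[ℝ] E), hA⟩
        exact f.inner_map_map w z
      have h3 : (star A * A) w = ContinuousLinearMap.adjoint A (A w) := rfl
      rw [h3, ContinuousLinearMap.adjoint_inner_left, h2]
      rfl
    have h4 : Matrix.toEuclideanCLM (𝕜 := ℝ) (M.transpose * M) = Matrix.toEuclideanCLM (𝕜 := ℝ) 1 := by
      rw [map_mul, map_one, ← Matrix.conjTranspose_eq_transpose_of_trivial, ← Matrix.star_eq_conjTranspose, map_star, hM, h1]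
    exact Matrix.toEuclideanCLM.injective h4
  have hC : ConjMat ((rs A hA)^[1]) M := by
    refine ⟨id, id, continuous_id, continuous_id, fun _ => rfl, fun _ => rfl, fun x i => ?_⟩
    have : ((rs A hA) x).1 = Matrix.toEuclideanCLM (𝕜 := ℝ) M x.1 := by rw [rs_coe, hM]
    simp only [Function.iterate_one, id]
    rw [this, clm_apply]
  have h1 := ((H72R.main φ (rs A hA) 1 odd_one M hMM hC).2 hm).1 hp
  rcases h1.2 with h2 | h2
  · rw [← hM, h2, map_one]
  · exfalso
    refine h2 v.ofLp (fun h0 => hv ?_) ?_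
    · ext i
      exact congrFun h0 i
    · ext i
      have h3 := clm_apply M v i
      rw [hM, h] at h3
      rw [h3]
      rfl

end H72O
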