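import Pool.Agent.Lib.H72O.Q2

/-! # H72O, chunk Q4 -/

set_option autoImplicit false

open scoped Quaternion

noncomputable section

namespace H72O

open H72R H72G Filter

/-- (Q4, S) PROOF. Copy the proof of `H72G.exists_near` in `H72G/A4.lean`, with `Ocom` in place of `Com`
(`h.1` becomes the norm part: `obtain ⟨hA, _⟩ := h`) and `ocom_cancel hm` in place of `com_cancel`. -/
theorem oexists_near {φ : Flow ℝ S3} (hm : MinimalFlow φ) (hinf : {A : L | Ocom φ A}.Infinite) (ε : ℝ)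
    (hε : 0 < ε) : ∃ B : L, Ocom φ B ∧ B ≠ 1 ∧ ‖B - 1‖ < ε := by
  have hprop : ProperSpace L := FiniteDimensional.proper ℝ L
  have hcomp : IsCompact (Metric.closedBall (0 : L) 1) := isCompact_closedBall 0 1
  have hsub : {A : L | Ocom φ A} ⊆ Metric.closedBall (0 : L) 1 := by
    intro A hA
    rw [mem_closedBall_zero_iff]
    exact ContinuousLinearMap.opNorm_le_bound A zero_le_one (fun v => by rw [hA.choose v, one_mul])
  obtain ⟨A, _, hacc⟩ := hinf.exists_accPt_of_subset_isCompact hcomp hsub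
  rw [accPt_iff_nhds] at hacc
  obtain ⟨A₂, ⟨h2b, h2⟩, h2ne⟩ := hacc (Metric.ball A (ε / 2)) (Metric.ball_mem_nhds A (by positivity))
  have hd : 0 < dist A₂ A := dist_pos.2 h2ne
  obtain ⟨A₁, ⟨h1b, h1⟩, h1ne⟩ := hacc (Metric.ball A (min (ε / 2) (dist A₂ A)))
    (Metric.ball_mem_nhds A (lt_min (by positivity) hd))
  rw [Metric.mem_ball] at h1b h2b
  have h1b' := lt_min_iff.1 h1b
  have hne : A₂ ≠ A₁ := by
    intro h
    rw [h] at h1b'
    exact lt_irrefl _ h1b'.2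
  have hdist : ‖A₂ - A₁‖ < ε := by
    rw [← dist_eq_norm]
    calc dist A₂ A₁ ≤ dist A₂ A + dist A₁ A := dist_triangle_right _ _ _
      _ < ε := by linarith [h1b'.1]
  have h1' : Ocom φ A₁ := h1
  have h2' : Ocom φ A₂ := h2
  obtain ⟨f, hf⟩ : ∃ f : E →ₗᵢ[ℝ] E, ∀ v, f v = A₁ v := ⟨⟨(A₁ : E →ₗ[ℝ] E), fun v => h1'.choose v⟩, fun v => rfl⟩
  obtain ⟨e, he⟩ : ∃ e : E ≃ₗᵢ[ℝ] E, ∀ v, e v = A₁ v := ⟨f.toLinearIsometryEquiv rfl, fun v => by
    rw [← hf v]
    rfl⟩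
  obtain ⟨B, hB⟩ : ∃ B : L, ∀ v, B v = e.symm (A₂ v) :=
    ⟨(e.symm.toContinuousLinearEquiv : E →L[ℝ] E).comp A₂, fun v => rfl⟩
  have hAB : A₁ * B = A₂ := by
    ext1 v
    show A₁ (B v) = A₂ v
    rw [hB, ← he, LinearIsometryEquiv.apply_symm_apply]
  refine ⟨B, ocom_cancel hm h1' (by rw [hAB]; exact h2'), ?_, ?_⟩
  · intro h
    apply hne
    rw [← hAB, h, mul_one]
  · refine lt_of_le_of_lt (ContinuousLinearMap.opNorm_le_bound _ (norm_nonneg _) fun v => ?_) hdist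
    rw [← h1'.choose]
    have h3 : A₁ ((B - 1) v) = (A₂ - A₁) v := by
      show A₁ (B v - v) = A₂ v - A₁ v
      rw [map_sub, ← hAB]
      rfl
    rw [h3]
    exact (A₂ - A₁).le_opNorm v

end H72O
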