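import Pool.Agent.Lib.H72O.R5
import Pool.Agent.Lib.H72O.Q3
import Pool.Agent.Lib.H72O.Q4

/-! # H72O, F4: assembly -/

set_option autoImplicit false

open scoped Quaternion

noncomputable section

namespace H72O

open H72R H72G Filter

theorem circle_apply (J : L) (a : ℝ) (v : E) :
    (Real.cos a • (1 : L) + Real.sin a • J) v = Real.cos a • v + Real.sin a • J v := rfl

theorem ocom_finite {φ : Flow ℝ S3} (hm : MinimalFlow φ) : {A : L | Ocom φ A}.Finite := by
  by_contra hinf
  have hinf : {A : L | Ocom φ A}.Infinite := hinf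
  choose B hB h1 hn using fun n : ℕ => oexists_near hm hinf (1 / ((n : ℝ) + 1)) (by positivity)
  have hl : Tendsto (fun n => ‖B n - 1‖) atTop (nhds 0) := by
    refine squeeze_zero (fun n => norm_nonneg _) (fun n => (hn n).le) ?_
    exact tendsto_one_div_add_atTop_nhds_zero_nat
  obtain ⟨X, hX, σ, k, hk⟩ := limit B (fun n => (hB n).choose) h1 hl
  have hcom : ∀ t : ℝ, 0 ≤ t → Ocom φ (NormedSpace.exp (t • X)) := fun t ht =>
    ocom_lim hm (fun n => ocom_pow (hB (σ n)) (k t n)) (hk t ht)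
  obtain ⟨J, hJ, hJn, hJt⟩ := complex_structure X (by rintro rfl; simp at hX)
    (skew X fun t ht v => (hcom t ht).choose v) (fun t ht v hv hv' => ocom_fixed hm (hcom t ht) hv hv')
  have hc : ∀ a : ℝ, Ocom φ (Real.cos a • (1 : L) + Real.sin a • J) := fun a => by
    obtain ⟨t, ht, h⟩ := hJt a
    rw [← h]
    exact hcom t ht
  choose hcn hcp using hc
  have hJJ : ∀ v, J (J v) = -v := fun v => by
    have := congrArg (fun D : L => D v) hJ
    exact this
  obtain ⟨ψ, hψm, hψ⟩ := exists_commuting hm (fun a => rs _ (hcn a)) (by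
      refine Continuous.subtype_mk ?_ _
      have : Continuous fun p : ℝ × S3 => Real.cos p.1 • p.2.1 + Real.sin p.1 • J p.2.1 := by fun_prop
      exact this) (fun a => rs_inj _ (hcn a)) hcp (fun a b x => by
      apply Subtype.ext
      rw [rs_coe, rs_coe, rs_coe, circle_apply, circle_apply, circle_apply, map_add, map_smul, map_smul, hJJ,
        Real.cos_add, Real.sin_add]
      module) (fun a x => by
      apply Subtype.ext
      rw [rs_coe, rs_coe, circle_apply, circle_apply, Real.cos_add_two_pi, Real.sin_add_two_pi])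
  obtain ⟨χ, hχ, hχm⟩ := exists_quat_flow hψm J hJ hJn (fun a => ⟨hcn a, fun t x y hy => by
    have h2 : y = rs _ (hcn a) x := Subtype.ext hy
    rw [h2, ← hψ]
    rfl⟩)
  exact not_minimal χ hχ hχm

theorem orev_finite {φ : Flow ℝ S3} (hm : MinimalFlow φ) : {A : L | Orev φ A}.Finite := by
  rcases Set.eq_empty_or_nonempty {A : L | Orev φ A} with h | ⟨A₀, h₀⟩
  · rw [h]
    exact Set.finite_empty
  · have hinj : Function.Injective fun B : L => A₀ * B := fun B C hBC => inj_of_norm h₀.choose hBC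
    exact ((ocom_finite hm).preimage hinj.injOn).subset fun B hB => orev_mul h₀ hB

theorem ocom_order {φ : Flow ℝ S3} (hm : MinimalFlow φ) {A : L} (hA : Ocom φ A) : ∃ k > 0, A ^ k = 1 := by
  have hf := ocom_finite hm
  have : Finite {A : L | Ocom φ A} := hf
  obtain ⟨i, j, hij, he⟩ := Finite.exists_ne_map_eq_of_infinite
    (fun n : ℕ => (⟨A ^ n, ocom_pow hA n⟩ : {A : L | Ocom φ A}))
  have he : A ^ i = A ^ j := congrArg Subtype.val he
  rcases lt_or_gt_of_ne hij with h | h
  · refine ⟨j - i, by omega, ?_⟩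
    apply inj_of_norm (ocom_pow hA i).choose
    rw [← pow_add, mul_one, show i + (j - i) = j by omega, he]
  · refine ⟨i - j, by omega, ?_⟩
    apply inj_of_norm (ocom_pow hA j).choose
    rw [← pow_add, mul_one, show j + (i - j) = i by omega, he]

theorem orev_order {φ : Flow ℝ S3} (hm : MinimalFlow φ) {A : L} (hA : Orev φ A) : ∃ k > 0, A ^ k = 1 := by
  obtain ⟨k, hk, h⟩ := ocom_order hm (orev_mul hA hA)
  refine ⟨2 * k, by omega, ?_⟩
  rw [pow_mul, pow_two, h]

/-- `A` is orthogonal and `R = h A h⁻¹` maps orbits to orbits and preserves or reverses their direction. -/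
def IsSymmetry (φ : Flow ℝ S3) (h : S3 ≃ₜ S3) (A : Matrix (Fin 4) (Fin 4) ℝ) : Prop :=
  A.transpose * A = 1 ∧ ∃ R : S3 → S3, (∀ x i, (h.symm (R (h x))).1 i = ∑ j, A i j * x.1 j) ∧
    (PreservesOrbits φ R ∨ ReversesOrbits φ R)

theorem sym_cases {φ : Flow ℝ S3} {h : S3 ≃ₜ S3} {A : Matrix (Fin 4) (Fin 4) ℝ} (H : IsSymmetry φ h A) :
    Ocom (conj φ h) (Matrix.toEuclideanCLM (𝕜 := ℝ) A) ∨ Orev (conj φ h) (Matrix.toEuclideanCLM (𝕜 := ℝ) A) := by
  obtain ⟨hA, R, hR, hP⟩ := H
  have key : ∀ x : S3, rs _ (clm_norm hA) x = h.symm (R (h x)) := by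
    intro x
    apply Subtype.ext
    ext i
    rw [rs_coe, clm_apply, hR]
  rcases hP with hP | hP
  · left
    refine ⟨clm_norm hA, fun x t ht => ?_⟩
    obtain ⟨s, hs, h1⟩ := hP (h x) t ht
    refine ⟨s, hs, ?_⟩
    rw [key, key, conj_apply, conj_apply, h.apply_symm_apply, h.apply_symm_apply, h1]
  · right
    refine ⟨clm_norm hA, fun x t ht => ?_⟩
    obtain ⟨s, hs, h1⟩ := hP (h x) t ht
    refine ⟨s, hs, ?_⟩
    rw [key, key, conj_apply, conj_apply, h.apply_symm_apply, h.apply_symm_apply, h1]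

theorem main (φ : Flow ℝ S3) (hm : MinimalFlow φ) (h : S3 ≃ₜ S3) :
    {A : Matrix (Fin 4) (Fin 4) ℝ | IsSymmetry φ h A}.Finite ∧ ∀ A, IsSymmetry φ h A → ∃ k > 0, A ^ k = 1 := by
  have hinj : Function.Injective (Matrix.toEuclideanCLM (𝕜 := ℝ) (n := Fin 4)) := Matrix.toEuclideanCLM.injective
  have hm' := conj_minimal hm h
  refine ⟨(((ocom_finite hm').union (orev_finite hm')).preimage hinj.injOn).subset fun A hA => sym_cases hA,
    fun A hA => ?_⟩
  have : ∃ k > 0, (Matrix.toEuclideanCLM (𝕜 := ℝ) A) ^ k = 1 := by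
    rcases sym_cases hA with h1 | h1
    · exact ocom_order hm' h1
    · exact orev_order hm' h1
  obtain ⟨k, hk, he⟩ := this
  refine ⟨k, hk, hinj ?_⟩
  rw [map_pow, he, map_one]

end H72O
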