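import Pool.Agent.Lib.H72O.K7

/-! # H72O, F5: isometries which map orbits into orbits, without a condition on the direction -/

set_option autoImplicit false

noncomputable section

namespace H72O

open H72R H72G Filter

/-- `A` is orthogonal and `R = h A h⁻¹` maps every orbit into an orbit. -/
def IsSymmetry' (φ : Flow ℝ S3) (h : S3 ≃ₜ S3) (A : Matrix (Fin 4) (Fin 4) ℝ) : Prop :=
  A.transpose * A = 1 ∧ ∃ R : S3 → S3, (∀ x i, (h.symm (R (h x))).1 i = ∑ j, A i j * x.1 j) ∧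
    ∀ x (t : ℝ), ∃ s : ℝ, R (φ t x) = φ s (R x)

theorem sym' {φ : Flow ℝ S3} (hm : MinimalFlow φ) {h : S3 ≃ₜ S3} {A : Matrix (Fin 4) (Fin 4) ℝ}
    (H : IsSymmetry' φ h A) : IsSymmetry φ h A := by
  obtain ⟨hA, R, hR, hP⟩ := H
  have key : R = fun x => h (rs _ (clm_norm hA) (h.symm x)) := by
    funext x
    have h1 : rs _ (clm_norm hA) (h.symm x) = h.symm (R x) := by
      apply Subtype.ext
      ext i
      rw [rs_coe, clm_apply, ← hR, h.apply_symm_apply]
    rw [h1, h.apply_symm_apply]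
  refine ⟨hA, R, hR, dichotomy hm ?_ ?_ hP⟩
  · rw [key]
    exact h.continuous.comp ((rs_cont _ _).comp h.symm.continuous)
  · rw [key]
    exact h.injective.comp ((rs_inj _ _).comp h.symm.injective)

theorem main' (φ : Flow ℝ S3) (hm : MinimalFlow φ) (h : S3 ≃ₜ S3) :
    {A : Matrix (Fin 4) (Fin 4) ℝ | IsSymmetry' φ h A}.Finite ∧ ∀ A, IsSymmetry' φ h A → ∃ k > 0, A ^ k = 1 :=
  ⟨(main φ hm h).1.subset fun _ hA => sym' hm hA, fun A hA => (main φ hm h).2 A (sym' hm hA)⟩

end H72O
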