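import Pool.Agent.Lib.H72O.D

/-! # H72O, chunk H1 -/

set_option autoImplicit false

open scoped Quaternion

noncomputable section

namespace H72O

open H72R H72G Filter

/-- (H1, S-M) Forward half orbits of a minimal flow are dense. PROOF. Let `D` be the omega limit set of `y`:
`D = ⋂ n : ℕ, closure {z | ∃ u ≥ n, z = φ u y}` (or Mathlib's `omegaLimit atTop φ {y}` with
`Flow.isInvariant_omegaLimit`, `isClosed_omegaLimit`, `nonempty_omegaLimit`). `D` is closed, nonempty (decreasing
intersection of nonempty compact sets, or cluster point of the sequence `φ n y`), invariant, so `D = univ` by `hm`;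
and `D ⊆ closure C = C`. -/
theorem half_dense {φ : Flow ℝ S3} (hm : MinimalFlow φ) {C : Set S3} (hC : IsClosed C) {y : S3}
    (h : ∀ u : ℝ, 0 ≤ u → φ u y ∈ C) : C = Set.univ := by
  have h1 : omegaLimit (atTop : Filter ℝ) φ {y} = Set.univ := by
    refine hm _ (isClosed_omegaLimit _ _ _) (nonempty_omegaLimit _ _ _ (Set.singleton_nonempty y)) ?_
    exact Flow.isInvariant_omegaLimit _ _ _ fun t => tendsto_atTop_add_const_left _ t tendsto_id
  have h2 : omegaLimit (atTop : Filter ℝ) φ {y} ⊆ C := by
    rw [omegaLimit_def]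
    refine (Set.iInter₂_subset (Set.Ici (0 : ℝ)) (Ici_mem_atTop 0)).trans ?_
    refine closure_minimal ?_ hC
    rintro _ ⟨u, hu, z, hz, rfl⟩
    rw [Set.mem_singleton_iff.1 hz]
    exact h u hu
  exact Set.univ_subset_iff.1 (h1 ▸ h2)

end H72O
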