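import Pool.Agent.Lib.H72O.H1
import Pool.Agent.Lib.H72O.H2

/-! # H72O, chunk H3 -/

set_option autoImplicit false

open scoped Quaternion

noncomputable section

namespace H72O

open H72R H72G Filter

/-- (H3, M) PROOF. Suppose `s n → ∞`. Let `C = R' '' ((fun r => φ r x') '' Set.Icc 0 M)`, a compact set
(`R'` is continuous: as a continuous limit; to avoid this, note that `C` compact is only used to get `C` closed, and
continuity of `R'` is hypothesis `hR'`). Claim: for every `u ≥ 0`, `φ u (R' x') ∈ C`. Eventually `u ≤ s n`, so by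
`ivt` there is `r n ∈ [0, t n] ⊆ [0, M]` with `R n (φ (r n) (x n)) = φ u (R n (x n))`. By compactness of `[0, M]`
a subsequence of `r n` converges to `r ∈ [0, M]`, along it the left side tends to `R' (φ r x')` (`hc` applied along a
subsequence: extend to all `n`, or use the full sequence `z` equal to `φ (r n) (x n)` on the subsequence and to
`φ r x'` elsewhere; simplest: apply `IsCompact.tendsto_subseq` to `r`, and use `Conv_sub` below for subsequences)
and the right side to `φ u (R' x')`. By `half_dense`, `C = univ`. So (`R'` injective) every point of the sphere is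
`φ r x'` with `r ∈ [0, M]`; in particular `φ (M + 1) x'`, contradiction with `no_period hm`. -/
theorem Conv_sub {R : ℕ → S3 → S3} {R' : S3 → S3} (hR' : Continuous R') (hc : Conv R R') {κ : ℕ → ℕ}
    (hκ : StrictMono κ) : Conv (fun n => R (κ n)) R' := by
  classical
  intro z z' hz
  let w : ℕ → S3 := fun m => if h : ∃ n, κ n = m then z h.choose else z'
  have hw : ∀ n, w (κ n) = z n := by
    intro n
    have h : ∃ k, κ k = κ n := ⟨n, rfl⟩
    have h1 : w (κ n) = z h.choose := dif_pos h
    rw [h1, hκ.injective h.choose_spec]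
  have hlim : Tendsto w atTop (nhds z') := by
    rw [tendsto_atTop']
    intro U hU
    obtain ⟨N, hN⟩ := tendsto_atTop'.1 hz U hU
    refine ⟨κ N, fun m hm => ?_⟩
    by_cases h : ∃ n, κ n = m
    · obtain ⟨n, rfl⟩ := h
      rw [hw n]
      exact hN n (hκ.le_iff_le.1 hm)
    · have h1 : w m = z' := dif_neg h
      rw [h1]
      exact mem_of_mem_nhds hU
  have h2 := (hc w z' hlim).comp hκ.tendsto_atTop
  refine h2.congr fun n => ?_
  show R (κ n) (w (κ n)) = R (κ n) (z n)
  rw [hw n]

theorem bdd {φ : Flow ℝ S3} (hm : MinimalFlow φ) {R : ℕ → S3 → S3} {R' : S3 → S3} (hR : ∀ n, Continuous (R n))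
    (hR' : Continuous R') (hp : ∀ n, PreservesOrbits φ (R n)) (hc : Conv R R') (hi : Function.Injective R')
    {x : ℕ → S3} {x' : S3} (hx : Tendsto x atTop (nhds x')) {t s : ℕ → ℝ} {M : ℝ} (ht : ∀ n, 0 ≤ t n ∧ t n ≤ M)
    (h : ∀ n, R n (φ (t n) (x n)) = φ (s n) (R n (x n))) : ¬ Tendsto s atTop atTop := by
  intro hs
  have hM : 0 ≤ M := (ht 0).1.trans (ht 0).2
  have hφ : Continuous fun p : ℝ × S3 => φ p.1 p.2 := φ.cont'
  have hφx : Continuous fun r : ℝ => φ r x' := hφ.comp (continuous_id.prodMk continuous_const)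
  have hC : IsClosed (R' '' ((fun r => φ r x') '' Set.Icc 0 M)) :=
    ((isCompact_Icc.image hφx).image hR').isClosed
  have key : ∀ u : ℝ, 0 ≤ u → φ u (R' x') ∈ R' '' ((fun r => φ r x') '' Set.Icc 0 M) := by
    intro u hu
    obtain ⟨N, hN⟩ := (tendsto_atTop.1 hs u).exists_forall_of_atTop
    choose r hr0 hr1 hr2 using fun n : ℕ =>
      ivt hm (hR (n + N)) (hp (n + N)) (ht (n + N)).1 (h (n + N)) hu (hN (n + N) (Nat.le_add_left N n))
    obtain ⟨a, ha, κ, hκ, hlim⟩ := (isCompact_Icc (a := (0 : ℝ)) (b := M)).tendsto_subseq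
      (fun n => ⟨hr0 n, (hr1 n).trans (ht (n + N)).2⟩)
    have hκ' : StrictMono fun n => κ n + N := fun m n hmn => Nat.add_lt_add_right (hκ hmn) N
    have hc' := Conv_sub hR' hc hκ'
    have hx' : Tendsto (fun n => x (κ n + N)) atTop (nhds x') := hx.comp hκ'.tendsto_atTop
    have h1 : Tendsto (fun n => φ (r (κ n)) (x (κ n + N))) atTop (nhds (φ a x')) :=
      (hφ.tendsto (a, x')).comp (hlim.prodMk_nhds hx')
    have h2 := hc' _ _ h1
    have h3 := hc' _ _ hx'
    have h4 : Tendsto (fun n => φ u (R (κ n + N) (x (κ n + N)))) atTop (nhds (φ u (R' x'))) :=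
      (hφ.tendsto (u, R' x')).comp (tendsto_const_nhds.prodMk_nhds h3)
    have h5 : φ u (R' x') = R' (φ a x') := by
      refine tendsto_nhds_unique h4 (h2.congr fun n => ?_)
      exact hr2 (κ n)
    exact ⟨φ a x', ⟨a, ha, rfl⟩, h5.symm⟩
  have huniv := half_dense hm hC key
  have h6 : R' (φ (M + 1) x') ∈ R' '' ((fun r => φ r x') '' Set.Icc 0 M) := by
    rw [huniv]
    trivial
  obtain ⟨_, ⟨b, hb, rfl⟩, h7⟩ := h6
  have h8 := no_period hm x' (hi h7)
  have h9 := hb.2
  linarith

end H72O
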