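import Pool.Agent.Lib.H72O.H3

/-! # H72O, chunk H4 -/

set_option autoImplicit false

open scoped Quaternion

noncomputable section

namespace H72O

open H72R H72G Filter

private theorem sub_lim {φ : Flow ℝ S3} (hm : MinimalFlow φ) {R : ℕ → S3 → S3} {R' : S3 → S3} (hR : ∀ n, Continuous (R n))
    (hR' : Continuous R') (hp : ∀ n, PreservesOrbits φ (R n)) (hc : Conv R R') (hi : Function.Injective R')
    {x : ℕ → S3} {x' : S3} (hx : Tendsto x atTop (nhds x')) {t s : ℕ → ℝ} {t' : ℝ} (ht : Tendsto t atTop (nhds t'))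
    (ht0 : ∀ n, 0 ≤ t n) (hs0 : ∀ n, 0 ≤ s n) (h : ∀ n, R n (φ (t n) (x n)) = φ (s n) (R n (x n))) :
    ∃ κ : ℕ → ℕ, StrictMono κ ∧ ∃ s', 0 ≤ s' ∧ Tendsto (fun n => s (κ n)) atTop (nhds s') ∧
      R' (φ t' x') = φ s' (R' x') := by
  obtain ⟨M, hM⟩ := ht.bddAbove_range
  have h1 := bdd hm hR hR' hp hc hi hx (t := t) (s := s) (M := M) (fun n => ⟨ht0 n, hM ⟨n, rfl⟩⟩) h
  rw [tendsto_atTop] at h1
  push Not at h1
  obtain ⟨b, hb⟩ := h1
  obtain ⟨κ₁, hκ₁, h2⟩ := extraction_of_frequently_atTop hb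
  obtain ⟨s', hs', κ₂, hκ₂, h3⟩ := isCompact_Icc.tendsto_subseq (x := fun n => s (κ₁ n))
    (s := Set.Icc 0 b) (fun n => ⟨hs0 _, (h2 n).le⟩)
  have hκ : StrictMono (fun n => κ₁ (κ₂ n)) := hκ₁.comp hκ₂
  refine ⟨fun n => κ₁ (κ₂ n), hκ, s', hs'.1, h3, ?_⟩
  have hcφ : Continuous fun p : ℝ × S3 => φ p.1 p.2 := φ.cont'
  have h4 : Tendsto (fun n => φ (t n) (x n)) atTop (nhds (φ t' x')) :=
    (hcφ.tendsto (t', x')).comp (ht.prodMk_nhds hx)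
  have h5 := (hc _ _ h4).comp hκ.tendsto_atTop
  have h6 := (hc _ _ hx).comp hκ.tendsto_atTop
  have h7 : Tendsto (fun n => φ (s (κ₁ (κ₂ n))) (R (κ₁ (κ₂ n)) (x (κ₁ (κ₂ n))))) atTop (nhds (φ s' (R' x'))) :=
    (hcφ.tendsto (s', R' x')).comp (h3.prodMk_nhds h6)
  refine tendsto_nhds_unique h5 (h7.congr fun n => ?_)
  exact (h _).symm

/-- (H4, M) -/
theorem lim_key {φ : Flow ℝ S3} (hm : MinimalFlow φ) {R : ℕ → S3 → S3} {R' : S3 → S3} (hR : ∀ n, Continuous (R n))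
    (hR' : Continuous R') (hp : ∀ n, PreservesOrbits φ (R n)) (hc : Conv R R') (hi : Function.Injective R')
    {x : ℕ → S3} {x' : S3} (hx : Tendsto x atTop (nhds x')) {t s : ℕ → ℝ} {t' : ℝ} (ht : Tendsto t atTop (nhds t'))
    (ht0 : ∀ n, 0 ≤ t n) (hs0 : ∀ n, 0 ≤ s n) (h : ∀ n, R n (φ (t n) (x n)) = φ (s n) (R n (x n))) :
    ∃ s', 0 ≤ s' ∧ Tendsto s atTop (nhds s') ∧ R' (φ t' x') = φ s' (R' x') := by
  obtain ⟨κ, hκ, s', hs', h1, h2⟩ := sub_lim hm hR hR' hp hc hi hx ht ht0 hs0 h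
  refine ⟨s', hs', tendsto_of_subseq_tendsto fun ns hns => ?_, h2⟩
  obtain ⟨μ, hμ, hμ'⟩ := strictMono_subseq_of_tendsto_atTop hns
  have hsub : StrictMono (fun n => ns (μ n)) := hμ'
  obtain ⟨κ', hκ', s'', hs'', h3, h4⟩ := sub_lim hm (R := fun n => R (ns (μ n))) (fun n => hR _) hR'
    (fun n => hp _) (Conv_sub hR' hc hsub) hi (x := fun n => x (ns (μ n))) (hx.comp hsub.tendsto_atTop)
    (t := fun n => t (ns (μ n))) (ht.comp hsub.tendsto_atTop) (fun n => ht0 _) (s := fun n => s (ns (μ n)))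
    (fun n => hs0 _) (fun n => h _)
  have h5 : s' = s'' := no_period hm (R' x') (by rw [← h2, ← h4])
  rw [h5]
  exact ⟨fun n => μ (κ' n), h3⟩

end H72O
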