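import Pool.Agent.Lib.H72O.H3

/-! # H72O, chunk H4 -/

set_option autoImplicit false

open scoped Quaternion

noncomputable section

namespace H72O

open H72R H72G Filter

/-- (H4, M) PROOF. `t` is bounded (convergent), say by `M`. Step 1: `s` is bounded above: otherwise there is a strictly
increasing `κ` with `s (κ n) → ∞` (`Filter.exists_seq_tendsto`-type or `strictMono_subseq` argument; e.g.
`tendsto_atTop_of_...`; choose `κ` with `s (κ n) ≥ n`), contradiction with `bdd` for the subsequence (`Conv_sub`).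
Step 2: so `s n ∈ [0, B]`; take a convergent subsequence with limit `s'`; in the limit
`R' (φ t' x') = φ s' (R' x')` (`hc`, continuity of the flow). Step 3: every subsequence has a further subsequence
converging to a limit with the same property, which is `s'` by `no_period hm`; so `s → s'`
(`tendsto_of_subseq_tendsto`, or `IsCompact.tendsto_nhds_of_unique_mapClusterPt`). -/
theorem lim_key {φ : Flow ℝ S3} (hm : MinimalFlow φ) {R : ℕ → S3 → S3} {R' : S3 → S3} (hR : ∀ n, Continuous (R n))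
    (hR' : Continuous R') (hp : ∀ n, PreservesOrbits φ (R n)) (hc : Conv R R') (hi : Function.Injective R')
    {x : ℕ → S3} {x' : S3} (hx : Tendsto x atTop (nhds x')) {t s : ℕ → ℝ} {t' : ℝ} (ht : Tendsto t atTop (nhds t'))
    (ht0 : ∀ n, 0 ≤ t n) (hs0 : ∀ n, 0 ≤ s n) (h : ∀ n, R n (φ (t n) (x n)) = φ (s n) (R n (x n))) :
    ∃ s', 0 ≤ s' ∧ Tendsto s atTop (nhds s') ∧ R' (φ t' x') = φ s' (R' x') := by
  obtain ⟨M, hM⟩ := ht.bddAbove_range
  have hM' : ∀ n, t n ≤ M := fun n => hM ⟨n, rfl⟩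
  -- step 1
  have hb : BddAbove (Set.range s) := by
    by_contra hnb
    have hfr : ∀ n : ℕ, ∃ᶠ k in atTop, (n : ℝ) ≤ s k := by
      intro n hn
      refine hnb (IsBoundedUnder.bddAbove_range ⟨(n : ℝ), ?_⟩)
      rw [eventually_map]
      exact hn.mono fun k hk => (not_le.1 hk).le
    obtain ⟨κ, hκ, hκs⟩ := extraction_forall_of_frequently hfr
    refine bdd hm (R := fun n => R (κ n)) (R' := R') (fun n => hR (κ n)) hR' (fun n => hp (κ n))
      (Conv_sub hR' hc hκ) hi (x := fun n => x (κ n)) (hx.comp hκ.tendsto_atTop)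
      (t := fun n => t (κ n)) (s := fun n => s (κ n)) (M := M)
      (fun n => ⟨ht0 _, hM' _⟩) (fun n => h _) ?_
    exact tendsto_atTop_mono hκs tendsto_natCast_atTop_atTop
  obtain ⟨B, hB⟩ := hb
  have hmem : ∀ n, s n ∈ Set.Icc 0 B := fun n => ⟨hs0 n, hB ⟨n, rfl⟩⟩
  -- every limit of a subsequence has the property
  have key : ∀ (κ : ℕ → ℕ) (s'' : ℝ), StrictMono κ → Tendsto (s ∘ κ) atTop (nhds s'') →
      R' (φ t' x') = φ s'' (R' x') := by
    intro κ s'' hκ hs
    have hcκ := Conv_sub hR' hc hκ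
    have hxκ : Tendsto (fun n => x (κ n)) atTop (nhds x') := hx.comp hκ.tendsto_atTop
    have htκ : Tendsto (fun n => t (κ n)) atTop (nhds t') := ht.comp hκ.tendsto_atTop
    have h1 : Tendsto (fun n => φ (t (κ n)) (x (κ n))) atTop (nhds (φ t' x')) :=
      (φ.cont'.tendsto (t', x')).comp (htκ.prodMk_nhds hxκ)
    have h2 := hcκ _ _ h1
    have h3 : Tendsto (fun n => φ (s (κ n)) (R (κ n) (x (κ n)))) atTop (nhds (φ s'' (R' x'))) :=
      (φ.cont'.tendsto (s'', R' x')).comp (hs.prodMk_nhds (hcκ _ _ hxκ))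
    refine tendsto_nhds_unique h2 (h3.congr fun n => ?_)
    exact (h (κ n)).symm
  obtain ⟨s', hs'm, κ, hκ, hs'⟩ := isCompact_Icc.tendsto_subseq hmem
  have hk := key κ s' hκ hs'
  refine ⟨s', hs'm.1, ?_, hk⟩
  refine isCompact_Icc.tendsto_nhds_of_unique_mapClusterPt (Eventually.of_forall hmem) ?_
  intro y _ hy
  obtain ⟨ψ, hψ, hψy⟩ := hy.tendsto_subseq
  have h4 := key ψ y hψ hψy
  exact no_period hm (R' x') (by rw [← h4, hk])

end H72O
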