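import Pool.Agent.Lib.H72O.F4

/-! # H72O, K0: the time change along one orbit, definitions -/

set_option autoImplicit false

noncomputable section

namespace H72O

open H72R H72G Filter

/-- Two injective continuous curves `p`, `q` in the sphere, `p t = q (σ t)`, and `q` has no limit at `± ∞`. -/
structure Rep (p q : ℝ → S3) (σ : ℝ → ℝ) : Prop where
  hp : Continuous p
  hq : Continuous q
  pinj : Function.Injective p
  qinj : Function.Injective q
  top : ∀ z, ¬ Tendsto q atTop (nhds z)
  bot : ∀ z, ¬ Tendsto q atBot (nhds z)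
  hσ : ∀ t, p t = q (σ t)

theorem Rep.sinj {p q : ℝ → S3} {σ : ℝ → ℝ} (h : Rep p q σ) : Function.Injective σ := fun a b hab =>
  h.pinj (by rw [h.hσ, h.hσ, hab])

/-- Reflection. -/
theorem Rep.refl {p q : ℝ → S3} {σ : ℝ → ℝ} (h : Rep p q σ) : Rep (fun t => p (-t)) q (fun t => σ (-t)) where
  hp := h.hp.comp continuous_neg
  hq := h.hq
  pinj := fun a b hab => neg_injective (h.pinj hab)
  qinj := h.qinj
  top := h.top
  bot := h.bot
  hσ := fun t => h.hσ (-t)

end H72O
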