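import Pool.Agent.Lib.H72O.K0

/-! # H72O, chunk K1 -/

set_option autoImplicit false

noncomputable section

namespace H72O

open H72R H72G Filter

private theorem no_lim_aux {φ : Flow ℝ S3} (hm : MinimalFlow φ) (y z : S3) {l : Filter ℝ} [l.NeBot]
    (hl : Tendsto (fun u : ℝ => 1 + u) l l) : ¬ Tendsto (fun u : ℝ => φ u y) l (nhds z) := by
  intro h
  have hc : Continuous fun w : S3 => φ (1 : ℝ) w := φ.continuous continuous_const continuous_id
  have h1 : Tendsto (fun u : ℝ => φ (1 : ℝ) (φ u y)) l (nhds (φ (1 : ℝ) z)) := (hc.tendsto z).comp h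
  have h2 : Tendsto (fun u : ℝ => φ (1 : ℝ) (φ u y)) l (nhds z) := by
    have h3 := h.comp hl
    refine h3.congr fun u => ?_
    simp only [Function.comp_apply, Flow.map_add]
  have h4 : φ (1 : ℝ) z = φ (0 : ℝ) z := by
    rw [Flow.map_zero_apply]
    exact tendsto_nhds_unique h1 h2
  exact one_ne_zero (no_period hm z h4)

/-- (K1, S) PROOF. If `φ u y → z` as `u → ∞`, then `φ (1 + u) y = φ 1 (φ u y) → φ 1 z` and also `→ z`, so `φ 1 z = z`,
contradiction with `no_period hm` (`φ 1 z = φ 0 z`). Same at `-∞`. -/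
theorem no_lim {φ : Flow ℝ S3} (hm : MinimalFlow φ) (y z : S3) :
    ¬ Tendsto (fun u : ℝ => φ u y) atTop (nhds z) ∧ ¬ Tendsto (fun u : ℝ => φ u y) atBot (nhds z) :=
  ⟨no_lim_aux hm y z (tendsto_atTop_add_const_left _ _ tendsto_id),
    no_lim_aux hm y z (tendsto_atBot_add_const_left _ _ tendsto_id)⟩

end H72O
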