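import Pool.Agent.Lib.H72O.K0

/-! # H72O, chunk K2 -/

set_option autoImplicit false

noncomputable section

namespace H72O

open H72R H72G Filter

/-- (K2, S-M) PROOF. `{t | |σ t| ≤ k} = p ⁻¹' (q '' Set.Icc (-k) k)` (`qinj`), closed as the image is compact. On it `σ` is
continuous: the restriction of `q` to `Set.Icc (-k) k` is a closed embedding (compact, injective, Hausdorff target),
and `q ∘ σ = p` is continuous. (Compare `hemb`, `hrc` in `H72R.sigma_le`, `H72R/K.lean`, and `ivt` in `H72O/H2.lean`.) -/
theorem contOn_of_bdd {p q : ℝ → S3} {σ : ℝ → ℝ} (h : Rep p q σ) (k : ℝ) :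
    IsClosed {t : ℝ | |σ t| ≤ k} ∧ ContinuousOn σ {t : ℝ | |σ t| ≤ k} := by
  constructor
  · have hset : {t : ℝ | |σ t| ≤ k} = p ⁻¹' (q '' Set.Icc (-k) k) := by
      ext t
      constructor
      · intro ht
        exact ⟨σ t, abs_le.1 ht, (h.hσ t).symm⟩
      · rintro ⟨v, hv, hvt⟩
        have h1 : v = σ t := h.qinj (hvt.trans (h.hσ t))
        exact abs_le.2 (h1 ▸ hv)
    rw [hset]
    exact ((isCompact_Icc.image h.hq).isClosed).preimage h.hp
  · rw [continuousOn_iff_continuous_domRestrict]
    let e : Set.Icc (-k) k → S3 := fun v => q v.1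
    have hemb : Topology.IsClosedEmbedding e :=
      Continuous.isClosedEmbedding (h.hq.comp continuous_subtype_val)
        (fun a b hab => Subtype.ext (h.qinj hab))
    let r : {t : ℝ | |σ t| ≤ k} → Set.Icc (-k) k := fun t => ⟨σ t.1, abs_le.1 t.2⟩
    have hrc : Continuous r := by
      rw [hemb.isEmbedding.continuous_iff]
      have h2 : e ∘ r = fun t : {t : ℝ | |σ t| ≤ k} => p t.1 := by
        funext t
        exact (h.hσ t.1).symm
      rw [h2]
      exact h.hp.comp continuous_subtype_val
    exact continuous_subtype_val.comp hrc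

end H72O
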