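import Pool.Agent.Lib.H72O.K0

/-! # H72O, chunk K3 -/

set_option autoImplicit false

noncomputable section

namespace H72O

open H72R H72G Filter

/-- (K3, M) PROOF. `σ` is continuous and injective on `Ioc c t`, so strictly monotone or strictly antitone there (Mathlib:
`ContinuousOn.strictMonoOn_of_injOn_...`, or on each `Icc s t`). If `σ` is increasing on `Ioc c t`: then `σ s ≤ σ t`; if
not bounded below, `σ s → -∞` as `s → c+`; by the intermediate value theorem every `u ≤ σ t` is `σ s` for some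
`s ∈ Ioc c t`, and `q u = q (σ s) = p s`. Claim `q u → p c` as `u → -∞`: given a neighbourhood `W` of `p c`, by
continuity of `p` there is `e ∈ Ioc c t` with `p s ∈ W` for `s ∈ Ioc c e`; for `u < σ e`, `u = σ s` with `s < e`, so
`q u = p s ∈ W`. Contradiction with `h.bot`. The decreasing case is the same with `+∞` and `h.top`. -/
theorem bdd_right {p q : ℝ → S3} {σ : ℝ → ℝ} (h : Rep p q σ) {c t : ℝ} (hct : c < t)
    (hc : ContinuousOn σ (Set.Ioc c t)) : ∃ k : ℝ, ∀ s ∈ Set.Ioc c t, |σ s| ≤ k := by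
  have hW : ∀ W ∈ nhds (p c), ∃ e, c < e ∧ e ≤ t ∧ ∀ s, c < s → s < e → p s ∈ W := by
    intro W hW
    have h1 : p ⁻¹' W ∈ nhds c := h.hp.continuousAt.preimage_mem_nhds hW
    obtain ⟨ε, hε, h2⟩ := Metric.mem_nhds_iff.1 h1
    refine ⟨min (c + ε) t, lt_min (by linarith) hct, min_le_right _ _, fun s hs1 hs2 => ?_⟩
    have h3 : s < c + ε := hs2.trans_le (min_le_left _ _)
    apply h2
    rw [Metric.mem_ball, Real.dist_eq, abs_lt]
    constructor <;> linarith
  have hcpt : ∀ e, c < e → ∃ B, ∀ s ∈ Set.Icc e t, |σ s| ≤ B := by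
    intro e he
    have h1 : ContinuousOn σ (Set.Icc e t) := hc.mono fun s hs => ⟨he.trans_le hs.1, hs.2⟩
    obtain ⟨B, hB⟩ := isCompact_Icc.exists_bound_of_continuousOn h1
    exact ⟨B, fun s hs => by simpa using hB s hs⟩
  have hA : ∃ k : ℝ, ∀ s ∈ Set.Ioc c t, k ≤ σ s := by
    by_contra hcon
    have hun : ∀ k : ℝ, ∃ s ∈ Set.Ioc c t, σ s < k := by
      intro k
      by_contra hk
      exact hcon ⟨k, fun s hs => not_lt.1 fun hlt => hk ⟨s, hs, hlt⟩⟩
    refine h.bot (p c) ?_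
    intro W hWm
    obtain ⟨e, he, het, heW⟩ := hW W hWm
    obtain ⟨B, hB⟩ := hcpt e he
    rw [Filter.mem_map]
    filter_upwards [Filter.eventually_lt_atBot (-B)] with u hu
    obtain ⟨s1, hs1, hlt⟩ := hun u
    have htB := (abs_le.1 (hB t ⟨het, le_rfl⟩)).1
    obtain ⟨s, hs, hsu⟩ := intermediate_value_Icc hs1.2
      (hc.mono fun x hx => ⟨hs1.1.trans_le hx.1, hx.2⟩) (show u ∈ Set.Icc (σ s1) (σ t) from
        ⟨hlt.le, by linarith⟩)
    have hse : s < e := by
      by_contra hle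
      have := (abs_le.1 (hB s ⟨not_lt.1 hle, hs.2⟩)).1
      linarith
    show q u ∈ W
    rw [← hsu, ← h.hσ]
    exact heW s (hs1.1.trans_le hs.1) hse
  have hBd : ∃ k : ℝ, ∀ s ∈ Set.Ioc c t, σ s ≤ k := by
    by_contra hcon
    have hun : ∀ k : ℝ, ∃ s ∈ Set.Ioc c t, k < σ s := by
      intro k
      by_contra hk
      exact hcon ⟨k, fun s hs => not_lt.1 fun hlt => hk ⟨s, hs, hlt⟩⟩
    refine h.top (p c) ?_
    intro W hWm
    obtain ⟨e, he, het, heW⟩ := hW W hWm
    obtain ⟨B, hB⟩ := hcpt e he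
    rw [Filter.mem_map]
    filter_upwards [Filter.eventually_gt_atTop B] with u hu
    obtain ⟨s1, hs1, hlt⟩ := hun u
    have htB := (abs_le.1 (hB t ⟨het, le_rfl⟩)).2
    obtain ⟨s, hs, hsu⟩ := intermediate_value_Icc' hs1.2
      (hc.mono fun x hx => ⟨hs1.1.trans_le hx.1, hx.2⟩) (show u ∈ Set.Icc (σ t) (σ s1) from
        ⟨by linarith, hlt.le⟩)
    have hse : s < e := by
      by_contra hle
      have := (abs_le.1 (hB s ⟨not_lt.1 hle, hs.2⟩)).2
      linarith
    show q u ∈ W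
    rw [← hsu, ← h.hσ]
    exact heW s (hs1.1.trans_le hs.1) hse
  obtain ⟨k1, h1⟩ := hA
  obtain ⟨k2, h2⟩ := hBd
  refine ⟨max (-k1) k2, fun s hs => ?_⟩
  rw [abs_le]
  constructor
  · have := h1 s hs
    have := le_max_left (-k1) k2
    linarith
  · exact (h2 s hs).trans (le_max_right _ _)

end H72O
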