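import Pool.Agent.Lib.H72O.K2
import Pool.Agent.Lib.H72O.K3

/-! # H72O, chunk K4 -/

set_option autoImplicit false

noncomputable section

namespace H72O

open H72R H72G Filter

/-- (K4, M) PROOF. Let `m = (c + d) / 2`. `bdd_right` on `Ioc c m` gives a bound there; `bdd_right` for `h.refl` on
`Ioc (-d) (-m)` gives a bound on `Ico m d`. So `|σ| ≤ k` on `Set.Icc c d` for some `k` (also at the two end points), and
`σ` is continuous on `Set.Icc c d ⊆ {t | |σ t| ≤ k}` by `contOn_of_bdd`. A continuous injective function on `Set.Icc c d`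
is monotone or antitone (`ContinuousOn.strictMonoOn_of_injOn_Icc'`), so `σ s` lies between `σ c` and `σ d`. -/
theorem between {p q : ℝ → S3} {σ : ℝ → ℝ} (h : Rep p q σ) {c d : ℝ} (hcd : c < d)
    (hc : ContinuousOn σ (Set.Ioo c d)) : ContinuousOn σ (Set.Icc c d) ∧
      ∀ s ∈ Set.Icc c d, |σ s| ≤ max |σ c| |σ d| := by
  have hm1 : c < (c + d) / 2 := by linarith
  have hm2 : (c + d) / 2 < d := by linarith
  obtain ⟨k1, hk1⟩ := bdd_right h hm1 (hc.mono fun s hs => ⟨hs.1, lt_of_le_of_lt hs.2 hm2⟩)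
  have hc' : ContinuousOn (fun t => σ (-t)) (Set.Ioc (-d) (-((c + d) / 2))) := by
    refine hc.comp continuous_neg.continuousOn (fun s hs => ⟨?_, ?_⟩)
    · have := hs.2
      linarith
    · have := hs.1
      linarith
  obtain ⟨k2, hk2⟩ := bdd_right h.refl (c := -d) (t := -((c + d) / 2)) (by linarith) hc'
  have hk : ∀ s ∈ Set.Icc c d, |σ s| ≤ max (max k1 k2) (max |σ c| |σ d|) := by
    intro s hs
    rcases eq_or_lt_of_le hs.1 with h1 | h1
    · rw [← h1]
      exact (le_max_left _ _).trans (le_max_right _ _)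
    rcases eq_or_lt_of_le hs.2 with h2 | h2
    · rw [h2]
      exact (le_max_right _ _).trans (le_max_right _ _)
    rcases le_or_gt s ((c + d) / 2) with h3 | h3
    · exact (hk1 s ⟨h1, h3⟩).trans ((le_max_left _ _).trans (le_max_left _ _))
    · have h4 := hk2 (-s) ⟨by linarith, by linarith⟩
      rw [neg_neg] at h4
      exact h4.trans ((le_max_right _ _).trans (le_max_left _ _))
  have hcont : ContinuousOn σ (Set.Icc c d) :=
    (contOn_of_bdd h (max (max k1 k2) (max |σ c| |σ d|))).2.mono hk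
  refine ⟨hcont, fun s hs => ?_⟩
  rcases hcont.strictMonoOn_of_injOn_Icc' hcd.le h.sinj.injOn with hmono | hanti
  · exact abs_le_max_abs_abs (hmono.monotoneOn (Set.left_mem_Icc.2 hcd.le) hs hs.1)
      (hmono.monotoneOn hs (Set.right_mem_Icc.2 hcd.le) hs.2)
  · rw [max_comm]
    exact abs_le_max_abs_abs (hanti.antitoneOn hs (Set.right_mem_Icc.2 hcd.le) hs.2)
      (hanti.antitoneOn (Set.left_mem_Icc.2 hcd.le) hs hs.1)

end H72O
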