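import Pool.Agent.Lib.H72O.K4

/-! # H72O, chunk K5 -/

set_option autoImplicit false

noncomputable section

namespace H72O

open H72R H72G Filter

private theorem bdd_near_right {p q : ℝ → S3} {σ : ℝ → ℝ} (h : Rep p q σ) {N : Set ℝ} (hN : IsClosed N)
    (hcont : ∀ t, t ∉ N → ContinuousAt σ t) {k ε n₀ : ℝ} (hn₀ : n₀ ∈ N) (hε : 0 < ε)
    (hk : ∀ t ∈ N, n₀ ≤ t → t < n₀ + ε → |σ t| ≤ k) :
    ∃ δ : ℝ, 0 < δ ∧ ∃ K : ℝ, ∀ s ∈ Set.Icc n₀ (n₀ + δ), |σ s| ≤ K := by
  by_cases hc : ∃ n₁ ∈ N, n₀ < n₁ ∧ n₁ < n₀ + ε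
  · obtain ⟨n₁, hn₁, h01, h1ε⟩ := hc
    refine ⟨n₁ - n₀, by linarith, k, ?_⟩
    rintro s ⟨hs0, hs1⟩
    have hs1' : s ≤ n₁ := by linarith
    by_cases hsN : s ∈ N
    · exact hk s hsN hs0 (by linarith)
    · have hA : IsCompact (N ∩ Set.Icc n₀ s) := isCompact_Icc.inter_left hN
      have hB : IsCompact (N ∩ Set.Icc s n₁) := isCompact_Icc.inter_left hN
      have hcm : sSup (N ∩ Set.Icc n₀ s) ∈ N ∩ Set.Icc n₀ s :=
        hA.sSup_mem ⟨n₀, hn₀, le_rfl, hs0⟩
      have hdm : sInf (N ∩ Set.Icc s n₁) ∈ N ∩ Set.Icc s n₁ :=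
        hB.sInf_mem ⟨n₁, hn₁, hs1', le_rfl⟩
      have hcle : ∀ t ∈ N ∩ Set.Icc n₀ s, t ≤ sSup (N ∩ Set.Icc n₀ s) := fun t ht =>
        le_csSup hA.bddAbove ht
      have hdle : ∀ t ∈ N ∩ Set.Icc s n₁, sInf (N ∩ Set.Icc s n₁) ≤ t := fun t ht =>
        csInf_le hB.bddBelow ht
      generalize sSup (N ∩ Set.Icc n₀ s) = c at hcm hcle
      generalize sInf (N ∩ Set.Icc s n₁) = d at hdm hdle
      obtain ⟨hcN, hc0, hcs⟩ := hcm
      obtain ⟨hdN, hds, hd1⟩ := hdm
      have hcs' : c < s := lt_of_le_of_ne hcs (fun e => hsN (e ▸ hcN))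
      have hds' : s < d := lt_of_le_of_ne hds (fun e => hsN (e ▸ hdN))
      have hco : ContinuousOn σ (Set.Ioo c d) := by
        intro t ht
        refine (hcont t ?_).continuousWithinAt
        intro htN
        rcases le_total t s with hts | hts
        · have := hcle t ⟨htN, by linarith [ht.1], hts⟩
          linarith [ht.1]
        · have := hdle t ⟨htN, hts, by linarith [ht.2]⟩
          linarith [ht.2]
      have hb := (between h (hcs'.trans hds') hco).2 s ⟨hcs'.le, hds'.le⟩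
      refine hb.trans (max_le ?_ ?_)
      · exact hk c hcN hc0 (by linarith)
      · exact hk d hdN (by linarith) (by linarith)
  · have hc' : ∀ t ∈ N, n₀ < t → n₀ + ε ≤ t := by
      intro t ht htn
      by_contra hlt
      exact hc ⟨t, ht, htn, not_le.1 hlt⟩
    have hco : ContinuousOn σ (Set.Ioo n₀ (n₀ + ε / 2)) := by
      intro t ht
      refine (hcont t ?_).continuousWithinAt
      intro htN
      have := hc' t htN ht.1
      linarith [ht.2]
    exact ⟨ε / 2, by linarith, _, (between h (by linarith) hco).2⟩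

/-- (K5, M-L) PROOF (Baire). Let `E k = {t | |σ t| ≤ k}` for `k : ℕ` (closed, `contOn_of_bdd`), `U = ⋃ k, interior (E k)`,
open; `σ` is continuous at every point of `U` (`ContinuousOn.continuousAt`). Let `N = Uᶜ`, closed. If `N` is empty we
are done. Otherwise `N` is a nonempty complete metric space (`IsClosed.completeSpace_coe`), covered by the closed sets
`E k ∩ N`, so by Baire (`nonempty_interior_of_iUnion_of_closed`) there are `k`, `n₀ ∈ N` and `ε > 0` with
`N ∩ Ioo (n₀ - ε) (n₀ + ε) ⊆ E k`. Claim: `σ` is bounded on `[n₀, n₀ + δ]` for some `δ > 0`. Case 1: no point of `N` in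
`Ioo n₀ (n₀ + ε)`: then `σ` is continuous on `Ioo n₀ (n₀ + ε / 2)` and `between` gives a bound on
`Icc n₀ (n₀ + ε / 2)`. Case 2: there is `n₁ ∈ N`, `n₀ < n₁ < n₀ + ε`. For `s ∈ Icc n₀ n₁`: if `s ∈ N` then
`|σ s| ≤ k`. Otherwise let `c = sSup (N ∩ Icc n₀ s)`, `d = sInf (N ∩ Icc s n₁)`; `c, d ∈ N` (closed), `c < s < d`,
`Ioo c d ⊆ U`, so `between` gives `|σ s| ≤ max |σ c| |σ d| ≤ k`. The same on the left (apply the claim to `h.refl`:
state the claim as a private lemma). So `n₀ ∈ interior (E k')` for a larger `k'`, contradiction with `n₀ ∈ N`. -/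
theorem sigma_cont {p q : ℝ → S3} {σ : ℝ → ℝ} (h : Rep p q σ) : Continuous σ := by
  have hEcl : ∀ k : ℕ, IsClosed {t : ℝ | |σ t| ≤ (k : ℝ)} := fun k => (contOn_of_bdd h k).1
  have hUo : IsOpen (⋃ k : ℕ, interior {t : ℝ | |σ t| ≤ (k : ℝ)}) :=
    isOpen_iUnion (fun k => isOpen_interior)
  have hcU : ∀ t ∈ (⋃ k : ℕ, interior {t : ℝ | |σ t| ≤ (k : ℝ)}), ContinuousAt σ t := by
    intro t ht
    obtain ⟨k, hk⟩ := Set.mem_iUnion.1 ht
    exact (contOn_of_bdd h k).2.continuousAt (mem_interior_iff_mem_nhds.1 hk)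
  set N : Set ℝ := (⋃ k : ℕ, interior {t : ℝ | |σ t| ≤ (k : ℝ)})ᶜ with hNdef
  have hN : IsClosed N := hUo.isClosed_compl
  have hcont : ∀ t, t ∉ N → ContinuousAt σ t := fun t ht => hcU t (not_not.1 ht)
  by_cases hne : N.Nonempty
  · exfalso
    haveI : CompleteSpace N := hN.completeSpace_coe
    haveI : Nonempty N := hne.to_subtype
    obtain ⟨k, x, hx⟩ := nonempty_interior_of_iUnion_of_closed
      (f := fun k : ℕ => {x : N | |σ (x : ℝ)| ≤ (k : ℝ)})
      (fun k => (hEcl k).preimage continuous_subtype_val)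
      (Set.eq_univ_of_forall fun x => by
        obtain ⟨k, hk⟩ := exists_nat_ge |σ (x : ℝ)|
        exact Set.mem_iUnion.2 ⟨k, hk⟩)
    obtain ⟨ε, hε, hball⟩ := Metric.mem_nhds_iff.1 (mem_interior_iff_mem_nhds.1 hx)
    have hkey : ∀ t ∈ N, |t - (x : ℝ)| < ε → |σ t| ≤ (k : ℝ) := by
      intro t ht htx
      have : (⟨t, ht⟩ : N) ∈ Metric.ball x ε := by
        rw [Metric.mem_ball, Subtype.dist_eq, Real.dist_eq]
        exact htx
      exact hball this
    obtain ⟨δ₁, hδ₁, K₁, hK₁⟩ := bdd_near_right h hN hcont x.2 hε (fun t ht h1 h2 =>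
      hkey t ht (abs_lt.2 ⟨by linarith, by linarith⟩))
    have hN' : IsClosed ((fun t : ℝ => -t) ⁻¹' N) := hN.preimage continuous_neg
    have hcont' : ∀ t, t ∉ (fun t : ℝ => -t) ⁻¹' N → ContinuousAt (fun t => σ (-t)) t := by
      intro t ht
      exact ContinuousAt.comp' (f := fun t : ℝ => -t) (g := σ) (hcont (-t) ht) continuous_neg.continuousAt
    have hx' : -(x : ℝ) ∈ (fun t : ℝ => -t) ⁻¹' N := by
      change - -(x : ℝ) ∈ N
      rw [neg_neg]
      exact x.2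
    obtain ⟨δ₂, hδ₂, K₂, hK₂⟩ := bdd_near_right h.refl hN' hcont' hx' hε
      (k := (k : ℝ)) (fun t ht h1 h2 => hkey (-t) ht (abs_lt.2 ⟨by linarith, by linarith⟩))
    obtain ⟨m, hm⟩ := exists_nat_ge (max K₁ K₂)
    refine x.2 (Set.mem_iUnion.2 ⟨m, mem_interior_iff_mem_nhds.2 ?_⟩)
    refine Filter.mem_of_superset (Ioo_mem_nhds (show (x : ℝ) - δ₂ < x by linarith)
      (show (x : ℝ) < x + δ₁ by linarith)) ?_
    rintro s ⟨hs1, hs2⟩
    change |σ s| ≤ (m : ℝ)
    rcases le_total (x : ℝ) s with hxs | hxs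
    · exact (hK₁ s ⟨hxs, hs2.le⟩).trans ((le_max_left _ _).trans hm)
    · have := hK₂ (-s) ⟨by linarith, by linarith⟩
      rw [neg_neg] at this
      exact this.trans ((le_max_right _ _).trans hm)
  · rw [Set.not_nonempty_iff_eq_empty] at hne
    rw [continuous_iff_continuousAt]
    intro t
    exact hcont t (by rw [hne]; exact Set.notMem_empty t)

end H72O
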