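import Pool.Agent.Lib.H72O.K1
import Pool.Agent.Lib.H72O.K5

/-! # H72O, chunk K6 -/

set_option autoImplicit false

noncomputable section

namespace H72O

open H72R H72G Filter

/-- (K6, S-M) PROOF. Let `σ` be chosen from `h` at `x`. `Rep (fun t => R (φ t x)) (fun s => φ s (R x)) σ` holds
(`no_period hm`, `hi`, `no_lim hm`), so `σ` is continuous (`sigma_cont`), injective (`Rep.sinj`), so strictly monotone or
strictly antitone (`Continuous.strictMono_of_inj`), and `σ 0 = 0`. -/
theorem orbit_dir {φ : Flow ℝ S3} (hm : MinimalFlow φ) {R : S3 → S3} (hR : Continuous R)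
    (hi : Function.Injective R) (h : ∀ x (t : ℝ), ∃ s : ℝ, R (φ t x) = φ s (R x)) (x : S3) :
    ∃ σ : ℝ → ℝ, Continuous σ ∧ σ 0 = 0 ∧ (StrictMono σ ∨ StrictAnti σ) ∧ ∀ t, R (φ t x) = φ (σ t) (R x) := by
  choose σ hσ using h x
  have hc : ∀ y : S3, Continuous fun t : ℝ => φ t y := fun y =>
    φ.cont'.comp (Continuous.prodMk continuous_id continuous_const)
  have hrep : Rep (fun t => R (φ t x)) (fun s => φ s (R x)) σ :=
    { hp := hR.comp (hc x)
      hq := hc (R x)
      pinj := fun a b hab => no_period hm x (hi hab)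
      qinj := fun a b hab => no_period hm (R x) hab
      top := fun z => (no_lim hm (R x) z).1
      bot := fun z => (no_lim hm (R x) z).2
      hσ := hσ }
  have h1 : Continuous σ := sigma_cont hrep
  have h2 : σ 0 = 0 := by
    refine no_period hm (R x) ?_
    rw [← hσ 0, Flow.map_zero_apply, Flow.map_zero_apply]
  exact ⟨σ, h1, h2, h1.strictMono_of_inj hrep.sinj, hσ⟩

end H72O
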