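import Pool.Agent.Lib.H72O.K6

/-! # H72O, chunk K7 -/

set_option autoImplicit false

noncomputable section

namespace H72O

open H72R H72G Filter

/-- The points whose images of the times in `[0, 1]` need times between `0` and `c` only. -/
private def FF (φ : Flow ℝ S3) (R : S3 → S3) (c : ℝ) : Set S3 :=
  {x | ∀ t ∈ Set.Icc (0 : ℝ) 1, ∃ s ∈ Set.uIcc (0 : ℝ) c, R (φ t x) = φ s (R x)}

private theorem FF_closed (φ : Flow ℝ S3) {R : S3 → S3} (hR : Continuous R) (c : ℝ) : IsClosed (FF φ R c) := by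
  have h1 : FF φ R c = ⋂ t ∈ Set.Icc (0 : ℝ) 1, {x | ∃ s ∈ Set.uIcc (0 : ℝ) c, R (φ t x) = φ s (R x)} := by
    ext x
    simp only [FF, Set.mem_iInter]
    rfl
  rw [h1]
  refine isClosed_biInter fun t _ => ?_
  haveI : CompactSpace (Set.uIcc (0 : ℝ) c) := isCompact_iff_compactSpace.1 isCompact_uIcc
  have h2 : {x | ∃ s ∈ Set.uIcc (0 : ℝ) c, R (φ t x) = φ s (R x)} =
      Prod.snd '' {p : Set.uIcc (0 : ℝ) c × S3 | R (φ t p.2) = φ p.1.1 (R p.2)} := by
    ext x
    constructor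
    · rintro ⟨s, hs, h⟩
      exact ⟨(⟨s, hs⟩, x), h, rfl⟩
    · rintro ⟨⟨s, y⟩, h, rfl⟩
      exact ⟨s.1, s.2, h⟩
  rw [h2]
  refine isClosedMap_snd_of_compactSpace _ (isClosed_eq ?_ ?_)
  · exact hR.comp (φ.continuous continuous_const continuous_snd)
  · exact φ.continuous (continuous_subtype_val.comp continuous_fst) (hR.comp continuous_snd)

/-- An open nonempty set is met by every orbit. -/
private theorem visit {φ : Flow ℝ S3} (hm : MinimalFlow φ) {W : Set S3} (hW : IsOpen W) (hne : W.Nonempty) (x : S3) :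
    ∃ a : ℝ, φ a x ∈ W := by
  by_contra hcon
  have hcon : ∀ a : ℝ, φ a x ∉ W := fun a ha => hcon ⟨a, ha⟩
  have h1 : {y | ∀ a : ℝ, φ a y ∉ W} = Set.univ := by
    refine hm _ ?_ ⟨x, hcon⟩ ?_
    · have h2 : {y | ∀ a : ℝ, φ a y ∉ W} = ⋂ a : ℝ, (fun y => φ a y) ⁻¹' Wᶜ := by
        ext y
        simp only [Set.mem_iInter]
        rfl
      rw [h2]
      exact isClosed_iInter fun a => hW.isClosed_compl.preimage (φ.continuous continuous_const continuous_id)
    · intro t y hy a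
      have h3 : φ a (φ t y) = φ (a + t) y := (Flow.map_add φ a t y).symm
      show φ a (φ t y) ∉ W
      rw [h3]
      exact hy (a + t)
  obtain ⟨w, hw⟩ := hne
  have h2 : w ∈ {y | ∀ a : ℝ, φ a y ∉ W} := h1 ▸ Set.mem_univ w
  refine h2 0 ?_
  rw [Flow.map_zero_apply]
  exact hw

/-- The time change along the orbit of `x` seen from a point of the orbit. -/
private theorem shift {φ : Flow ℝ S3} (hm : MinimalFlow φ) {R : S3 → S3} {x : S3} {σ : ℝ → ℝ}
    (hσ : ∀ t, R (φ t x) = φ (σ t) (R x)) {a t s : ℝ} (h : R (φ t (φ a x)) = φ s (R (φ a x))) :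
    σ (t + a) = s + σ a := by
  rw [← Flow.map_add, hσ, hσ, ← Flow.map_add] at h
  exact no_period hm _ h

/-- (K7, M) PROOF. For `k : ℕ` let `F k = {x | ∀ t ∈ Icc 0 1, ∃ s ∈ Icc 0 k, R (φ t x) = φ s (R x)}` and `G k` the same
with `s ∈ Icc (-k) 0`: closed sets (sequences: `s n ∈ [0,k]` has a convergent subsequence; `φ` and `R` are continuous).
By `orbit_dir` each `x` is in some `F k` (`σ` increasing, `k ≥ σ 1`) or in some `G k`. By Baire
(`nonempty_interior_of_iUnion_of_closed` with index `ℕ ⊕ ℕ`) some `F k` or some `G k` has an interior point. Say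
`F k ⊇ W`, `W` open nonempty. If `x ∈ F k` then `σ_x` is increasing (`σ_x 1 = s ≥ 0` by `no_period hm`). The set
`D = {x | σ_x increasing}` (i.e. `∀ t > 0, ∃ s > 0, R (φ t x) = φ s (R x)`) is invariant under `φ`: for `y = φ a x`,
`R (φ t y) = φ (σ_x (a + t) - σ_x a) (R y)`. The complement of `⋃ a, {x | φ a x ∈ W}` is closed and invariant and not
the whole sphere, so it is empty (`hm`): every `x` has `φ a x ∈ W ⊆ D` for some `a`, so `x ∈ D`. Hence
`PreservesOrbits`. In the other case the same argument gives `ReversesOrbits`. -/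
theorem dichotomy {φ : Flow ℝ S3} (hm : MinimalFlow φ) {R : S3 → S3} (hR : Continuous R)
    (hi : Function.Injective R) (h : ∀ x (t : ℝ), ∃ s : ℝ, R (φ t x) = φ s (R x)) :
    PreservesOrbits φ R ∨ ReversesOrbits φ R := by
  rcases isEmpty_or_nonempty S3 with h0 | h0
  · exact Or.inl fun x => isEmptyElim x
  have hcov : ⋃ m : ℤ, FF φ R (m : ℝ) = Set.univ := by
    rw [Set.eq_univ_iff_forall]
    intro x
    obtain ⟨σ, -, hσ0, hd, hσ⟩ := orbit_dir hm hR hi h x
    rw [Set.mem_iUnion]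
    rcases hd with hd | hd
    · obtain ⟨m, hmm⟩ := exists_int_gt (σ 1)
      refine ⟨m, fun t ht => ⟨σ t, ?_, hσ t⟩⟩
      have h1 : σ 0 ≤ σ t := hd.monotone ht.1
      have h2 : σ t ≤ σ 1 := hd.monotone ht.2
      rw [hσ0] at h1
      exact Set.Icc_subset_uIcc ⟨h1, h2.trans hmm.le⟩
    · obtain ⟨m, hmm⟩ := exists_int_lt (σ 1)
      refine ⟨m, fun t ht => ⟨σ t, ?_, hσ t⟩⟩
      have h1 : σ t ≤ σ 0 := hd.antitone ht.1
      have h2 : σ 1 ≤ σ t := hd.antitone ht.2
      rw [hσ0] at h1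
      exact Set.Icc_subset_uIcc' ⟨hmm.le.trans h2, h1⟩
  obtain ⟨m, hW⟩ := nonempty_interior_of_iUnion_of_closed (fun m : ℤ => FF_closed φ hR (m : ℝ)) hcov
  rcases le_total 0 m with hm0 | hm0
  · left
    intro x t ht
    obtain ⟨σ, -, hσ0, hd, hσ⟩ := orbit_dir hm hR hi h x
    obtain ⟨a, ha⟩ := visit hm isOpen_interior hW x
    obtain ⟨s, hs, hs1⟩ := interior_subset ha 1 ⟨zero_le_one, le_rfl⟩
    have h1 := shift hm hσ hs1
    rw [Set.uIcc_of_le (by exact_mod_cast hm0)] at hs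
    rcases hd with hd | hd
    · exact ⟨σ t, by rw [← hσ0]; exact hd ht, hσ t⟩
    · have h2 : σ (1 + a) < σ a := hd (by linarith)
      have h3 := hs.1
      exfalso
      linarith
  · right
    intro x t ht
    obtain ⟨σ, -, hσ0, hd, hσ⟩ := orbit_dir hm hR hi h x
    obtain ⟨a, ha⟩ := visit hm isOpen_interior hW x
    obtain ⟨s, hs, hs1⟩ := interior_subset ha 1 ⟨zero_le_one, le_rfl⟩
    have h1 := shift hm hσ hs1
    rw [Set.uIcc_of_ge (by exact_mod_cast hm0)] at hs
    rcases hd with hd | hd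
    · have h2 : σ a < σ (1 + a) := hd (by linarith)
      have h3 := hs.2
      exfalso
      linarith
    · refine ⟨-σ t, ?_, ?_⟩
      · have h2 : σ t < σ 0 := hd ht
        rw [hσ0] at h2
        linarith
      · rw [neg_neg]
        exact hσ t

end H72O
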