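import Pool.Agent.Lib.H72O.H4

/-! # H72O, chunk Q1 -/

set_option autoImplicit false

open scoped Quaternion

noncomputable section

namespace H72O

open H72R H72G Filter

/-- (Q1, S-M) PROOF. `‖A' v‖ = ‖v‖` in the limit (compare `com_lim` in `H72G/A2.lean`). Let `R n = rs (A n) _`,
`R' = rs A' _` (`conv_rs`, `rs_cont`, `rs_inj`). For `x` and `t > 0` choose `s n > 0` with
`R n (φ t x) = φ (s n) (R n x)`. `lim_key` (constant sequences `x`, `t`) gives `s' ≥ 0` with
`R' (φ t x) = φ s' (R' x)`. If `s' = 0` then `R' (φ t x) = R' x`, so `φ t x = x` (`rs_inj`), contradiction with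
`no_period hm` (`φ t x = φ 0 x`). -/
theorem ocom_lim {φ : Flow ℝ S3} (hm : MinimalFlow φ) {A : ℕ → L} {A' : L} (h : ∀ n, Ocom φ (A n))
    (hl : Tendsto A atTop (nhds A')) : Ocom φ A' := by
  have hev : ∀ v : E, Tendsto (fun n => A n v) atTop (nhds (A' v)) := fun v =>
    ((ContinuousLinearMap.apply ℝ E v).continuous.tendsto A').comp hl
  have hA : ∀ n v, ‖A n v‖ = ‖v‖ := fun n => (h n).choose
  have hp : ∀ n, PreservesOrbits φ (rs (A n) (hA n)) := fun n => (h n).choose_spec
  have hA' : ∀ v, ‖A' v‖ = ‖v‖ := fun v => by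
    have h1 : Tendsto (fun n => ‖A n v‖) atTop (nhds ‖A' v‖) := (hev v).norm
    have h2 : (fun n => ‖A n v‖) = fun _ => ‖v‖ := funext fun n => hA n v
    rw [h2] at h1
    exact tendsto_nhds_unique h1 tendsto_const_nhds
  refine ⟨hA', ?_⟩
  intro x t ht
  choose s hs0 hs using fun n => hp n x t ht
  obtain ⟨s', hs'0, -, hs'⟩ := lim_key hm (fun n => rs_cont (A n) (hA n)) (rs_cont A' hA') hp
    (conv_rs hA hA' hl) (rs_inj A' hA') (x := fun _ => x) (x' := x) tendsto_const_nhds
    (t := fun _ => t) (s := s) (t' := t) tendsto_const_nhds (fun _ => ht.le) (fun n => (hs0 n).le) hs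
  refine ⟨s', lt_of_le_of_ne hs'0 ?_, hs'⟩
  intro h0
  have h1 : φ t x = φ 0 x := by
    apply rs_inj A' hA'
    rw [hs', ← h0, φ.map_zero_apply, φ.map_zero_apply]
  exact ht.ne' (no_period hm x h1)

end H72O
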