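import Pool.Agent.Lib.H72O.Q1

/-! # H72O, chunk Q2 -/

set_option autoImplicit false

open scoped Quaternion

noncomputable section

namespace H72O

open H72R H72G Filter

/-- (Q2, S-M) PROOF of the first four: composition (`rs (A * B) _ = rs A _ ∘ rs B _`, `Subtype.ext`); for `orev_mul`
note `ReversesOrbits` gives `R (φ t x) = φ (-s) (R x)` for `t > 0`, hence (`H72R.ReversesOrbits.neg`)
`R (φ (-t) x) = φ s (R x)`, `s > 0`. -/
theorem ocom_one (φ : Flow ℝ S3) : Ocom φ 1 := by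
  refine ⟨fun v => rfl, fun x t ht => ⟨t, ht, ?_⟩⟩
  have e : ∀ y : S3, rs (1 : L) (fun v => rfl) y = y := fun y => Subtype.ext rfl
  rw [e, e]

private theorem q2_mul_norm {A B : L} (hA : ∀ v, ‖A v‖ = ‖v‖) (hB : ∀ v, ‖B v‖ = ‖v‖) (v : E) :
    ‖(A * B) v‖ = ‖v‖ := by
  rw [mul_apply_eq_comp, hA, hB]

private theorem q2_rs_mul {A B : L} (hA : ∀ v, ‖A v‖ = ‖v‖) (hB : ∀ v, ‖B v‖ = ‖v‖) (x : S3) :
    rs (A * B) (q2_mul_norm hA hB) x = rs A hA (rs B hB x) := Subtype.ext rfl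

theorem ocom_mul {φ : Flow ℝ S3} {A B : L} (hA : Ocom φ A) (hB : Ocom φ B) : Ocom φ (A * B) := by
  obtain ⟨hA1, hA2⟩ := hA
  obtain ⟨hB1, hB2⟩ := hB
  refine ⟨q2_mul_norm hA1 hB1, fun x t ht => ?_⟩
  obtain ⟨s, hs, h⟩ := hB2 x t ht
  obtain ⟨r, hr, h'⟩ := hA2 (rs B hB1 x) s hs
  refine ⟨r, hr, ?_⟩
  rw [q2_rs_mul hA1 hB1, q2_rs_mul hA1 hB1, h, h']

theorem ocom_pow {φ : Flow ℝ S3} {A : L} (hA : Ocom φ A) (n : ℕ) : Ocom φ (A ^ n) := by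
  induction n with
  | zero =>
    rw [pow_zero]
    exact ocom_one φ
  | succ n ih =>
    rw [pow_succ]
    exact ocom_mul ih hA

theorem orev_mul {φ : Flow ℝ S3} {A B : L} (hA : Orev φ A) (hB : Orev φ B) : Ocom φ (A * B) := by
  obtain ⟨hA1, hA2⟩ := hA
  obtain ⟨hB1, hB2⟩ := hB
  refine ⟨q2_mul_norm hA1 hB1, fun x t ht => ?_⟩
  obtain ⟨s, hs, h⟩ := hB2 x t ht
  obtain ⟨r, hr, h'⟩ := hA2.neg (rs B hB1 x) s hs
  refine ⟨r, hr, ?_⟩
  rw [q2_rs_mul hA1 hB1, q2_rs_mul hA1 hB1, h, h']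

/-- PROOF. `‖B v‖ = ‖A (B v)‖ = ‖v‖` is not needed. By `H72G.recur` (in `H72G/F3.lean`) choose `n k ≥ 1` with
`‖A ^ (n k) - 1‖ ≤ 1 / (k + 1)`. Then `A ^ (n k - 1) * (A * B) = A ^ (n k) * B` is `Ocom` (`ocom_pow`, `ocom_mul`) and
tends to `B` as `k → ∞`; `ocom_lim`. -/
theorem ocom_cancel {φ : Flow ℝ S3} (hm : MinimalFlow φ) {A B : L} (hA : Ocom φ A) (hAB : Ocom φ (A * B)) :
    Ocom φ B := by
  have h1 : ∀ k : ℕ, ∃ n, 1 ≤ n ∧ ‖A ^ n - 1‖ ≤ 1 / ((k : ℝ) + 1) := fun k =>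
    recur hA.1 (1 / ((k : ℝ) + 1)) (by positivity) 1
  choose n hn1 hn2 using h1
  have h2 : ∀ k, Ocom φ (A ^ n k * B) := by
    intro k
    have h3 := ocom_mul (ocom_pow hA (n k - 1)) hAB
    have h4 : A ^ (n k - 1) * (A * B) = A ^ n k * B := by
      rw [← mul_assoc, ← pow_succ, Nat.sub_add_cancel (hn1 k)]
    rwa [h4] at h3
  have h5 : Tendsto (fun k => A ^ n k) atTop (nhds 1) := by
    rw [tendsto_iff_norm_sub_tendsto_zero]
    exact squeeze_zero (fun k => norm_nonneg _) hn2 tendsto_one_div_add_atTop_nhds_zero_nat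
  have h6 : Tendsto (fun k => A ^ n k * B) atTop (nhds B) := by
    have h7 := h5.mul_const B
    rwa [one_mul] at h7
  exact ocom_lim hm h2 h6

end H72O
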