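import Pool.Agent.Lib.H72O.D
import Pool.Agent.Lib.H72O.H1

/-! # H72O, chunk Q3 -/

set_option autoImplicit false

open scoped Quaternion

noncomputable section

namespace H72O

open H72R H72G Filter

/-- (Q3, S-M) By `orbit_fixed` and `half_dense`. -/
theorem ocom_fixed {φ : Flow ℝ S3} (hm : MinimalFlow φ) {A : L} (hA : Ocom φ A) {v : E} (hv : v ≠ 0)
    (h : A v = v) : A = 1 := by
  obtain ⟨hn, hp⟩ := hA
  set li : E →ₗᵢ[ℝ] E := ⟨A.toLinearMap, hn⟩ with hli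
  have H : ConjIso (rs A hn) (li.toLinearIsometryEquiv rfl) :=
    ⟨Homeomorph.refl _, fun x => rfl⟩
  have hvn : ‖v‖ ≠ 0 := norm_ne_zero_iff.2 hv
  have hmem : ‖v‖⁻¹ • v ∈ Metric.sphere (0 : E) 1 := by
    rw [mem_sphere_zero_iff_norm, norm_smul, norm_inv, norm_norm, inv_mul_cancel₀ hvn]
  have hx : rs A hn ⟨‖v‖⁻¹ • v, hmem⟩ = ⟨‖v‖⁻¹ • v, hmem⟩ := by
    refine Subtype.ext ?_
    show A (‖v‖⁻¹ • v) = ‖v‖⁻¹ • v
    rw [map_smul, h]
  have hs : ({x : S3 | A x.1 = x.1} : Set S3) = Set.univ := by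
    refine half_dense hm ?_ (y := ⟨‖v‖⁻¹ • v, hmem⟩) ?_
    · exact isClosed_eq (A.continuous.comp continuous_subtype_val) continuous_subtype_val
    · intro u hu
      exact congrArg Subtype.val (orbit_fixed hm H hp hx hu)
  refine ContinuousLinearMap.ext fun w => ?_
  by_cases hw : w = 0
  · rw [hw, map_zero, map_zero]
  · have hwn : ‖w‖ ≠ 0 := norm_ne_zero_iff.2 hw
    have hmem : ‖w‖⁻¹ • w ∈ Metric.sphere (0 : E) 1 := by
      rw [mem_sphere_zero_iff_norm, norm_smul, norm_inv, norm_norm, inv_mul_cancel₀ hwn]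
    have h1 : (⟨‖w‖⁻¹ • w, hmem⟩ : S3) ∈ ({x : S3 | A x.1 = x.1} : Set S3) := by
      rw [hs]
      exact Set.mem_univ _
    have h2 : A (‖w‖⁻¹ • w) = ‖w‖⁻¹ • w := h1
    rw [map_smul] at h2
    have h3 := congrArg (fun u => ‖w‖ • u) h2
    simp only [smul_smul, mul_inv_cancel₀ hwn, one_smul] at h3
    exact h3

end H72O
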