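import Pool.Agent.Lib.H72O.H4

/-! # H72O, chunk R1 -/

set_option autoImplicit false

open scoped Quaternion

noncomputable section

namespace H72O

open H72R H72G Filter

private theorem R1_any {φ : Flow ℝ S3} {R : S3 → S3} (hp : PreservesOrbits φ R) (x : S3) (t : ℝ) :
    ∃ s, R (φ t x) = φ s (R x) ∧ (0 < t → 0 < s) ∧ (0 ≤ t → 0 ≤ s) := by
  rcases lt_trichotomy t 0 with h | h | h
  · obtain ⟨s, hs, hs2⟩ := hp (φ t x) (-t) (by linarith)
    refine ⟨-s, ?_, fun h' => by linarith, fun h' => by linarith⟩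
    rw [← Flow.map_add, neg_add_cancel, Flow.map_zero_apply] at hs2
    rw [hs2, ← Flow.map_add, neg_add_cancel, Flow.map_zero_apply]
  · subst h
    exact ⟨0, by rw [Flow.map_zero_apply, Flow.map_zero_apply], fun h' => absurd h' (lt_irrefl 0),
      fun _ => le_rfl⟩
  · obtain ⟨s, hs, hs2⟩ := hp x t h
    exact ⟨s, hs2, fun _ => hs, fun _ => hs.le⟩

/-- (R1, M) PROOF. For every `a x t` there is `s` with `g a (φ t x) = φ s (g a x)`, of the sign of `t`: `t > 0` from `hp`;
`t = 0`: `s = 0`; `t < 0`: apply `hp` at `φ t x` with time `-t`: `g a x = φ s₁ (g a (φ t x))`, `s₁ > 0`, so `s = -s₁`.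
Let `τ a x t` be this `s` (unique by `no_period hm`). Cocycle: `τ a x (t + t₁) = τ a x t + τ a (φ t x) t₁`
(`no_period`). Continuity on `{t ≥ 0}`: sequentially (the spaces are metric) by `lim_key` applied to `R n = g (a n)`,
`R' = g a'` (`Conv` holds as `g` is jointly continuous; the limit `s'` equals `τ a' x' t'` by `no_period`). For the
continuity at `(a₀, x₀, t₀)` let `M = |t₀| + 1`; near this point `t + M ≥ 0` and
`τ a x t = τ a x (t + M) - τ a (φ t x) M`. -/
theorem exists_tau {φ : Flow ℝ S3} (hm : MinimalFlow φ) (g : ℝ → S3 → S3)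
    (hg : Continuous fun p : ℝ × S3 => g p.1 p.2) (hi : ∀ a, Function.Injective (g a))
    (hp : ∀ a, PreservesOrbits φ (g a)) :
    ∃ τ : ℝ → S3 → ℝ → ℝ, (Continuous fun p : ℝ × S3 × ℝ => τ p.1 p.2.1 p.2.2) ∧
      (∀ a x t, g a (φ t x) = φ (τ a x t) (g a x)) ∧ ∀ a x t, 0 < t → 0 < τ a x t := by
  choose τ hτ1 hτ2 hτ3 using fun (a : ℝ) (x : S3) (t : ℝ) => R1_any (hp a) x t
  have huniq : ∀ a x t s, g a (φ t x) = φ s (g a x) → τ a x t = s := fun a x t s h =>
    no_period hm (g a x) (by rw [← hτ1, h])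
  have hcoc : ∀ a x t t₁, τ a x (t₁ + t) = τ a (φ t x) t₁ + τ a x t := by
    intro a x t t₁
    apply huniq
    rw [Flow.map_add, hτ1, hτ1, Flow.map_add]
  have hseq : ∀ (a : ℕ → ℝ) (a' : ℝ) (x : ℕ → S3) (x' : S3) (t : ℕ → ℝ) (t' : ℝ),
      Tendsto a atTop (nhds a') → Tendsto x atTop (nhds x') → Tendsto t atTop (nhds t') → (∀ n, 0 ≤ t n) →
      Tendsto (fun n => τ (a n) (x n) (t n)) atTop (nhds (τ a' x' t')) := by
    intro a a' x x' t t' ha hx ht ht0
    obtain ⟨s', -, h1, h2⟩ := lim_key hm (R := fun n => g (a n)) (R' := g a')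
      (fun n => hg.comp (continuous_const.prodMk continuous_id))
      (hg.comp (continuous_const.prodMk continuous_id)) (fun n => hp (a n))
      (fun z z' hz => (hg.tendsto (a', z')).comp (ha.prodMk_nhds hz)) (hi a') hx ht ht0
      (fun n => hτ3 (a n) (x n) (t n) (ht0 n)) (fun n => hτ1 (a n) (x n) (t n))
    rw [huniq a' x' t' s' h2]
    exact h1
  refine ⟨τ, ?_, hτ1, fun a x t h => hτ2 a x t h⟩
  rw [continuous_iff_seqContinuous]
  intro p p' hp'
  have ha : Tendsto (fun n => (p n).1) atTop (nhds p'.1) := (continuous_fst.tendsto p').comp hp'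
  have hx : Tendsto (fun n => (p n).2.1) atTop (nhds p'.2.1) :=
    ((continuous_fst.comp continuous_snd).tendsto p').comp hp'
  have ht : Tendsto (fun n => (p n).2.2) atTop (nhds p'.2.2) :=
    ((continuous_snd.comp continuous_snd).tendsto p').comp hp'
  have hf : Tendsto (fun n => φ (p n).2.2 (p n).2.1) atTop (nhds (φ p'.2.2 p'.2.1)) :=
    ((φ.continuous (continuous_snd.comp continuous_snd)
      (continuous_fst.comp continuous_snd)).tendsto p').comp hp'
  obtain ⟨M, hM0, hM⟩ : ∃ M : ℝ, 0 ≤ M ∧ -M < p'.2.2 :=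
    ⟨|p'.2.2| + 1, by positivity, by linarith [neg_abs_le p'.2.2]⟩
  have h0 : Tendsto (fun n => max (M + (p n).2.2) 0) atTop (nhds (M + p'.2.2)) := by
    have h := (tendsto_const_nhds (x := M).add ht).max (tendsto_const_nhds (x := (0 : ℝ)))
    rwa [max_eq_left (by linarith : (0 : ℝ) ≤ M + p'.2.2)] at h
  have h1 := hseq _ _ _ _ _ _ ha hx h0 (fun n => le_max_right _ _)
  have h2 := hseq _ _ _ _ (fun _ => M) M ha hf tendsto_const_nhds (fun _ => hM0)
  have h3 := h1.sub h2
  have h4 : τ p'.1 p'.2.1 (M + p'.2.2) - τ p'.1 (φ p'.2.2 p'.2.1) M = τ p'.1 p'.2.1 p'.2.2 := by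
    linarith [hcoc p'.1 p'.2.1 p'.2.2 M]
  rw [h4] at h3
  refine h3.congr' ?_
  filter_upwards [ht.eventually (lt_mem_nhds hM)] with n hn
  rw [max_eq_left (by linarith), Function.comp]
  linarith [hcoc (p n).1 (p n).2.1 (p n).2.2 M]

end H72O
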