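import Pool.Agent.Lib.H72O.H4

/-! # H72O, chunk R1 -/

set_option autoImplicit false

open scoped Quaternion

noncomputable section

namespace H72O

open H72R H72G Filter

/-- (R1, M) PROOF. For every `a x t` there is `s` with `g a (φ t x) = φ s (g a x)`, of the sign of `t`: `t > 0` from `hp`;
`t = 0`: `s = 0`; `t < 0`: apply `hp` at `φ t x` with time `-t`: `g a x = φ s₁ (g a (φ t x))`, `s₁ > 0`, so `s = -s₁`.
Let `τ a x t` be this `s` (unique by `no_period hm`). Cocycle: `τ a x (t + t₁) = τ a x t + τ a (φ t x) t₁`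
(`no_period`). Continuity on `{t ≥ 0}`: sequentially (the spaces are metric) by `lim_key` applied to `R n = g (a n)`,
`R' = g a'` (`Conv` holds as `g` is jointly continuous; the limit `s'` equals `τ a' x' t'` by `no_period`). For the
continuity at `(a₀, x₀, t₀)` let `M = |t₀| + 1`; near this point `t + M ≥ 0` and
`τ a x t = τ a x (t + M) - τ a (φ t x) M`. -/
theorem exists_tau {φ : Flow ℝ S3} (hm : MinimalFlow φ) (g : ℝ → S3 → S3)
    (hg : Continuous fun p : ℝ × S3 => g p.1 p.2) (hi : ∀ a, Function.Injective (g a))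
    (hp : ∀ a, PreservesOrbits φ (g a)) :
    ∃ τ : ℝ → S3 → ℝ → ℝ, (Continuous fun p : ℝ × S3 × ℝ => τ p.1 p.2.1 p.2.2) ∧
      (∀ a x t, g a (φ t x) = φ (τ a x t) (g a x)) ∧ ∀ a x t, 0 < t → 0 < τ a x t := by
  have hex : ∀ (a : ℝ) (x : S3) (t : ℝ), ∃ s : ℝ, g a (φ t x) = φ s (g a x) ∧
      (0 < t → 0 < s) ∧ (0 ≤ t → 0 ≤ s) := by
    intro a x t
    rcases lt_trichotomy t 0 with ht | ht | ht
    · obtain ⟨s, -, hs⟩ := hp a (φ t x) (-t) (by linarith)
      refine ⟨-s, ?_, fun h => absurd h (by linarith), fun h => absurd h (by linarith)⟩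
      rw [← Flow.map_add, neg_add_cancel, Flow.map_zero_apply] at hs
      rw [hs, ← Flow.map_add, neg_add_cancel, Flow.map_zero_apply]
    · refine ⟨0, ?_, fun h => absurd h (by linarith), fun _ => le_rfl⟩
      rw [ht, Flow.map_zero_apply, Flow.map_zero_apply]
    · obtain ⟨s, hs0, hs⟩ := hp a x t ht
      exact ⟨s, hs, fun _ => hs0, fun _ => hs0.le⟩
  choose τ hτ hτ1 hτ2 using hex
  refine ⟨τ, ?_, hτ, hτ1⟩
  have hco : ∀ a x t t₁, τ a x (t + t₁) = τ a x t + τ a (φ t x) t₁ := by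
    intro a x t t₁
    refine no_period hm (g a x) ?_
    rw [← hτ a x (t + t₁), add_comm t t₁, Flow.map_add, hτ a (φ t x) t₁, hτ a x t,
      ← Flow.map_add, add_comm]
  -- continuity for nonnegative times
  have hhalf : ∀ (a : ℕ → ℝ) (x : ℕ → S3) (t : ℕ → ℝ) (a' : ℝ) (x' : S3) (t' : ℝ),
      Tendsto a atTop (nhds a') → Tendsto x atTop (nhds x') → Tendsto t atTop (nhds t') →
      (∀ n, 0 ≤ t n) → Tendsto (fun n => τ (a n) (x n) (t n)) atTop (nhds (τ a' x' t')) := by
    intro a x t a' x' t' ha hx ht ht0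
    have hc : ∀ b, Continuous (g b) := fun b =>
      hg.comp (continuous_const.prodMk continuous_id)
    obtain ⟨s', -, hs', he⟩ := lim_key hm (R := fun n => g (a n)) (R' := g a')
      (fun n => hc (a n)) (hc a') (fun n => hp (a n))
      (fun z z' hz => (hg.tendsto (a', z')).comp (ha.prodMk_nhds hz)) (hi a') hx ht ht0
      (s := fun n => τ (a n) (x n) (t n)) (fun n => hτ2 _ _ _ (ht0 n)) (fun n => hτ _ _ _)
    have : s' = τ a' x' t' := by
      refine no_period hm (g a' x') ?_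
      rw [← he, hτ]
    rw [← this]
    exact hs'
  refine continuous_iff_seqContinuous.2 fun p q hpq => ?_
  have ha : Tendsto (fun n => (p n).1) atTop (nhds q.1) := (continuous_fst.tendsto q).comp hpq
  have hx : Tendsto (fun n => (p n).2.1) atTop (nhds q.2.1) :=
    ((continuous_fst.comp continuous_snd).tendsto q).comp hpq
  have ht : Tendsto (fun n => (p n).2.2) atTop (nhds q.2.2) :=
    ((continuous_snd.comp continuous_snd).tendsto q).comp hpq
  obtain ⟨m, hm'⟩ := ht.bddBelow_range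
  have hm2 : ∀ n, m ≤ (p n).2.2 := fun n => hm' ⟨n, rfl⟩
  set M : ℝ := |m| with hM
  have hM0 : 0 ≤ M := abs_nonneg m
  have hM1 : ∀ n, 0 ≤ (p n).2.2 + M := fun n => by
    have h1 := hm2 n
    have h2 := neg_abs_le m
    linarith
  have hflow : Tendsto (fun n => φ (p n).2.2 (p n).2.1) atTop (nhds (φ q.2.2 q.2.1)) :=
    (φ.cont'.tendsto (q.2.2, q.2.1)).comp (ht.prodMk_nhds hx)
  have h1 := hhalf (fun n => (p n).1) (fun n => (p n).2.1) (fun n => (p n).2.2 + M) q.1 q.2.1
    (q.2.2 + M) ha hx (ht.add_const M) hM1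
  have h2 := hhalf (fun n => (p n).1) (fun n => φ (p n).2.2 (p n).2.1) (fun _ => M) q.1
    (φ q.2.2 q.2.1) M ha hflow tendsto_const_nhds (fun _ => hM0)
  have h3 := h1.sub h2
  have e : ∀ (a : ℝ) (x : S3) (t : ℝ), τ a x (t + M) - τ a (φ t x) M = τ a x t := fun a x t => by
    rw [hco]
    ring
  simp only [e] at h3
  exact h3

end H72O
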