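import Pool.Agent.Lib.H72O.R1

/-! # H72O, chunk R2 -/

set_option autoImplicit false

open scoped Quaternion

noncomputable section

namespace H72O

open H72R H72G Filter

/-- (R2, M) PROOF. `τ` from `exists_tau`. `T x t = ∫ a in (0:ℝ)..(2 * π), τ a x t`. Continuity:
`intervalIntegral.continuous_parametric_intervalIntegral_of_continuous'` (or the version without prime) with parameter
`p : S3 × ℝ`. Positivity: `intervalIntegral.intervalIntegral_pos_of_pos` (integrand continuous, positive).
Additivity: `τ a x (s + t) = τ a x s + τ a (φ s x) t` by `no_period hm` (both are the time from `g a x` to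
`g a (φ (s+t) x)`), and `intervalIntegral.integral_add`. Invariance: for `b x t` take `s = τ b x t`; then
`τ a (g b x) (τ b x t) = τ (a + b) x t` by `no_period hm`:
`g a (φ (τ b x t) (g b x)) = g a (g b (φ t x)) = g (a + b) (φ t x)` and `g a (g b x) = g (a + b) x`. So
`T (g b x) s = ∫ a in 0..2π, τ (a + b) x t = ∫ a in b..(b + 2π), τ a x t = T x t` as `a ↦ τ a x t` has period `2π`
(`no_period` again, from `hper`) : `Function.Periodic.intervalIntegral_add_eq`. -/
theorem exists_T {φ : Flow ℝ S3} (hm : MinimalFlow φ) (g : ℝ → S3 → S3)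
    (hg : Continuous fun p : ℝ × S3 => g p.1 p.2) (hi : ∀ a, Function.Injective (g a))
    (hp : ∀ a, PreservesOrbits φ (g a)) (hadd : ∀ a b x, g (a + b) x = g a (g b x))
    (hper : ∀ a x, g (a + 2 * Real.pi) x = g a x) :
    ∃ T : S3 → ℝ → ℝ, (Continuous fun p : S3 × ℝ => T p.1 p.2) ∧ (∀ x t, 0 < t → 0 < T x t) ∧
      (∀ x s t, T x (s + t) = T x s + T (φ s x) t) ∧
      ∀ b x t, ∃ s, g b (φ t x) = φ s (g b x) ∧ T (g b x) s = T x t := by
  obtain ⟨τ, hτc, hτ, hτp⟩ := exists_tau hm g hg hi hp
  have hint : ∀ x t, Continuous fun a => τ a x t := fun x t =>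
    hτc.comp (Continuous.prodMk continuous_id (continuous_const : Continuous fun _ : ℝ => (x, t)))
  have h2 : (0 : ℝ) < 2 * Real.pi := by positivity
  refine ⟨fun x t => ∫ a in (0 : ℝ)..(2 * Real.pi), τ a x t, ?_, ?_, ?_, ?_⟩
  · have h3 : Continuous (Function.uncurry fun (p : S3 × ℝ) (a : ℝ) => τ a p.1 p.2) := by
      show Continuous fun q : (S3 × ℝ) × ℝ => τ q.2 q.1.1 q.1.2
      exact hτc.comp (continuous_snd.prodMk continuous_fst)
    exact intervalIntegral.continuous_parametric_intervalIntegral_of_continuous' h3 0 (2 * Real.pi)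
  · intro x t ht
    exact intervalIntegral.intervalIntegral_pos_of_pos ((hint x t).intervalIntegrable _ _)
      (fun a => hτp a x t ht) h2
  · intro x s t
    show (∫ a in (0 : ℝ)..(2 * Real.pi), τ a x (s + t)) =
      (∫ a in (0 : ℝ)..(2 * Real.pi), τ a x s) + ∫ a in (0 : ℝ)..(2 * Real.pi), τ a (φ s x) t
    rw [← intervalIntegral.integral_add ((hint x s).intervalIntegrable _ _) ((hint _ t).intervalIntegrable _ _)]
    refine intervalIntegral.integral_congr fun a _ => ?_
    show τ a x (s + t) = τ a x s + τ a (φ s x) t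
    apply no_period hm (g a x)
    rw [← hτ a x (s + t), add_comm s t, Flow.map_add, hτ a (φ s x) t, hτ a x s, ← Flow.map_add,
      add_comm (τ a x s)]
  · intro b x t
    refine ⟨τ b x t, hτ b x t, ?_⟩
    have key : ∀ a, τ a (g b x) (τ b x t) = τ (a + b) x t := by
      intro a
      apply no_period hm (g a (g b x))
      rw [← hτ a (g b x) (τ b x t), ← hτ b x t, ← hadd, ← hadd, hτ (a + b) x t]
    have hpd : Function.Periodic (fun a => τ a x t) (2 * Real.pi) := by
      intro a
      show τ (a + 2 * Real.pi) x t = τ a x t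
      apply no_period hm (g a x)
      rw [← hτ a x t, ← hper a (φ t x), hτ (a + 2 * Real.pi) x t, hper a x]
    show (∫ a in (0 : ℝ)..(2 * Real.pi), τ a (g b x) (τ b x t)) = ∫ a in (0 : ℝ)..(2 * Real.pi), τ a x t
    have e : (∫ a in (0 : ℝ)..(2 * Real.pi), τ a (g b x) (τ b x t)) =
        ∫ a in (0 : ℝ)..(2 * Real.pi), τ (a + b) x t := intervalIntegral.integral_congr fun a _ => key a
    have h4 := hpd.intervalIntegral_add_eq b 0
    rw [e, intervalIntegral.integral_comp_add_right (fun a => τ a x t) b, zero_add, add_comm (2 * Real.pi) b, h4,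
      zero_add]

end H72O
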