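import Pool.Agent.Lib.H72O.D

/-! # H72O, chunk R3 -/

set_option autoImplicit false

open scoped Quaternion

noncomputable section

namespace H72O

open H72R H72G Filter

/-- (R3, M) PROOF. `T x 0 = 0` (additivity at `0, 0`), `T x` is strictly increasing. `x ↦ T x 1` is continuous and positive
on the compact sphere, so `T x 1 ≥ c > 0` for all `x`; by induction `T x n ≥ n * c` and `T x (-n) ≤ -(n * c)`
(`T x (-n) + T (φ (-n) x) n = T x 0 = 0`). Intermediate value theorem: `T x` is onto. -/
theorem T_surj {φ : Flow ℝ S3} {T : S3 → ℝ → ℝ} (hT : Continuous fun p : S3 × ℝ => T p.1 p.2)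
    (hpos : ∀ x t, 0 < t → 0 < T x t) (hadd : ∀ x s t, T x (s + t) = T x s + T (φ s x) t) :
    ∀ x, StrictMono (T x) ∧ Function.Surjective (T x) ∧ T x 0 = 0 := by
  intro x
  have h0 : ∀ y, T y 0 = 0 := fun y => by
    have h := hadd y 0 0
    rw [add_zero, φ.map_zero_apply] at h
    linarith
  have hmono : ∀ y, StrictMono (T y) := fun y s t hst => by
    have h := hadd y s (t - s)
    have h2 := hpos (φ s y) (t - s) (sub_pos.2 hst)
    rw [add_sub_cancel] at h
    linarith
  have hc1 : Continuous fun y : S3 => T y 1 :=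
    hT.comp (f := fun y : S3 => (y, (1 : ℝ))) (by fun_prop)
  obtain ⟨x0, -, hx0⟩ := (isCompact_univ : IsCompact (Set.univ : Set S3)).exists_isMinOn
    ⟨x, Set.mem_univ x⟩ hc1.continuousOn
  have hc : 0 < T x0 1 := hpos x0 1 one_pos
  have hmin : ∀ y, T x0 1 ≤ T y 1 := fun y => hx0 (Set.mem_univ y)
  have hn : ∀ (n : ℕ) (y : S3), (n : ℝ) * T x0 1 ≤ T y n := by
    intro n
    induction n with
    | zero => intro y; simp [h0 y]
    | succ n ih =>
      intro y
      have h := hadd y n 1
      have h1 := ih y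
      have h2 := hmin (φ n y)
      push_cast
      rw [h]
      linarith
  have hneg : ∀ (n : ℕ) (y : S3), T y (-(n : ℝ)) ≤ -((n : ℝ) * T x0 1) := by
    intro n y
    have h := hadd y (-(n : ℝ)) n
    rw [neg_add_cancel, h0 y] at h
    have h1 := hn n (φ (-(n : ℝ)) y)
    linarith
  have hcx : Continuous (T x) := hT.comp (f := fun t : ℝ => (x, t)) (by fun_prop)
  refine ⟨hmono x, hcx.surjective ?_ ?_, h0 x⟩
  · refine tendsto_atTop_atTop_of_monotone (hmono x).monotone fun b => ?_
    obtain ⟨n, hb⟩ := exists_nat_ge (b / T x0 1)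
    refine ⟨n, ?_⟩
    rw [div_le_iff₀ hc] at hb
    exact hb.trans (hn n x)
  · refine tendsto_atBot_atBot_of_monotone (hmono x).monotone fun b => ?_
    obtain ⟨n, hb⟩ := exists_nat_ge ((-b) / T x0 1)
    refine ⟨-(n : ℝ), ?_⟩
    rw [div_le_iff₀ hc] at hb
    have := hneg n x
    linarith

end H72O
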