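import Pool.Agent.Lib.H72O.R3

/-! # H72O, chunk R4 -/

set_option autoImplicit false

open scoped Quaternion

noncomputable section

namespace H72O

open H72R H72G Filter

/-- (R4, M) A positive continuous cocycle defines a change of time of the flow. -/
theorem exists_change (φ : Flow ℝ S3) (T : S3 → ℝ → ℝ) (hT : Continuous fun p : S3 × ℝ => T p.1 p.2)
    (hpos : ∀ x t, 0 < t → 0 < T x t) (hadd : ∀ x s t, T x (s + t) = T x s + T (φ s x) t) :
    ∃ ψ : Flow ℝ S3, ∀ x t, ψ (T x t) x = φ t x := by
  have hS := T_surj hT hpos hadd
  choose V hV using fun (x : S3) (u : ℝ) => (hS x).2.1 u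
  have hVT : ∀ x t, V x (T x t) = t := fun x t => (hS x).1.injective (hV x (T x t))
  have hc : Continuous fun p : ℝ × S3 => V p.2 p.1 := by
    rw [continuous_iff_continuousAt]
    intro p
    have h2 : ∀ a : ℝ, Continuous fun q : ℝ × S3 => T q.2 a := fun a =>
      hT.comp (continuous_snd.prodMk continuous_const)
    rw [ContinuousAt, tendsto_order]
    constructor
    · intro a ha
      have h1 : T p.2 a < p.1 := by
        have := (hS p.2).1 ha
        rwa [hV] at this
      filter_upwards [((h2 a).tendsto p).eventually_lt (continuous_fst.tendsto p) h1] with q hq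
      rw [← (hS q.2).1.lt_iff_lt, hV]
      exact hq
    · intro a ha
      have h1 : p.1 < T p.2 a := by
        have := (hS p.2).1 ha
        rwa [hV] at this
      filter_upwards [(continuous_fst.tendsto p).eventually_lt ((h2 a).tendsto p) h1] with q hq
      rw [← (hS q.2).1.lt_iff_lt, hV]
      exact hq
  refine ⟨{ toFun := fun u x => φ (V x u) x, cont' := ?_, map_add' := ?_, map_zero' := ?_ },
    fun x t => ?_⟩
  · exact φ.continuous hc continuous_snd
  · intro u v x
    have h1 : V x (u + v) = V x v + V (φ (V x v) x) u := by
      apply (hS x).1.injective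
      rw [hV, hadd, hV, hV, add_comm]
    change φ (V x (u + v)) x = φ (V (φ (V x v) x) u) (φ (V x v) x)
    rw [h1, ← Flow.map_add, add_comm]
  · intro x
    change φ (V x 0) x = x
    have h : V x 0 = 0 := by
      have h := hVT x 0
      rwa [(hS x).2.2] at h
    rw [h, Flow.map_zero_apply]
  · change φ (V x (T x t)) x = φ t x
    rw [hVT]

end H72O
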