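import Pool.Agent.Lib.H72O.R3

/-! # H72O, chunk R4 -/

set_option autoImplicit false

open scoped Quaternion

noncomputable section

namespace H72O

open H72R H72G Filter

/-- (R4, M) PROOF. By `T_surj` let `V x u` be the unique time with `T x (V x u) = u`. `(x, u) ↦ V x u` is continuous: for
`ε > 0`, `T x (V x u - ε) < u < T x (V x u + ε)`, and by continuity of `T` these inequalities hold for `(x', u')` near
`(x, u)` with the same times `V x u ± ε`, so `V x' u' ∈ (V x u - ε, V x u + ε)` by strict monotonicity. Define
`ψ u x = φ (V x u) x`: continuous, `V x 0 = 0`, and `V x (u + v) = V x v + V (ψ v x) u` since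
`T x (V x v + V (ψ v x) u) = v + T (ψ v x) (V (ψ v x) u) = v + u`. So `ψ` is a flow. `ψ (T x t) x = φ t x` as
`V x (T x t) = t`. -/
theorem exists_change (φ : Flow ℝ S3) (T : S3 → ℝ → ℝ) (hT : Continuous fun p : S3 × ℝ => T p.1 p.2)
    (hpos : ∀ x t, 0 < t → 0 < T x t) (hadd : ∀ x s t, T x (s + t) = T x s + T (φ s x) t) :
    ∃ ψ : Flow ℝ S3, ∀ x t, ψ (T x t) x = φ t x := by
  have hs := T_surj hT hpos hadd
  have hmono : ∀ x, StrictMono (T x) := fun x => (hs x).1
  have hex : ∀ x u, ∃ v, T x v = u := fun x u => (hs x).2.1 u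
  choose V hV using hex
  have hVc : Continuous fun p : S3 × ℝ => V p.1 p.2 := by
    rw [continuous_iff_continuousAt]
    intro p
    have hc : ∀ a : ℝ, Continuous fun q : S3 × ℝ => T q.1 a := fun a =>
      hT.comp (continuous_fst.prodMk continuous_const)
    refine tendsto_order.2 ⟨fun a ha => ?_, fun b hb => ?_⟩
    · have h1 : T p.1 a < p.2 := by
        rw [← hV p.1 p.2]
        exact hmono p.1 ha
      have h2 : {q : S3 × ℝ | T q.1 a < q.2} ∈ nhds p :=
        (isOpen_lt (hc a) continuous_snd).mem_nhds h1
      refine Filter.mem_of_superset h2 fun q hq => ?_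
      have h3 : T q.1 a < T q.1 (V q.1 q.2) := by
        rw [hV]
        exact hq
      exact (hmono q.1).lt_iff_lt.1 h3
    · have h1 : p.2 < T p.1 b := by
        conv_lhs => rw [← hV p.1 p.2]
        exact hmono p.1 hb
      have h2 : {q : S3 × ℝ | q.2 < T q.1 b} ∈ nhds p :=
        (isOpen_lt continuous_snd (hc b)).mem_nhds h1
      refine Filter.mem_of_superset h2 fun q hq => ?_
      have h3 : T q.1 (V q.1 q.2) < T q.1 b := by
        rw [hV]
        exact hq
      exact (hmono q.1).lt_iff_lt.1 h3
  have hVT : ∀ x t, V x (T x t) = t := fun x t => (hmono x).injective (hV x (T x t))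
  refine ⟨{ toFun := fun u x => φ (V x u) x
            cont' := ?_
            map_add' := ?_
            map_zero' := ?_ }, ?_⟩
  · exact φ.continuous (hVc.comp (continuous_snd.prodMk continuous_fst)) continuous_snd
  · intro u v x
    have h1 : V x (u + v) = V (φ (V x v) x) u + V x v := by
      refine (hmono x).injective ?_
      rw [hV, add_comm (V (φ (V x v) x) u), hadd, hV, hV, add_comm]
    rw [h1, Flow.map_add]
  · intro x
    have h1 : V x 0 = 0 := by
      refine (hmono x).injective ?_
      rw [hV, (hs x).2.2]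
    rw [h1, Flow.map_zero_apply]
  · intro x t
    change φ (V x (T x t)) x = φ t x
    rw [hVT]

end H72O
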