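import Pool.Agent.Lib.H72O.R2
import Pool.Agent.Lib.H72O.R4

/-! # H72O, chunk R5 -/

set_option autoImplicit false

open scoped Quaternion

noncomputable section

namespace H72O

open H72R H72G Filter

/-- (R5, S) PROOF. `T` from `exists_T`, `ψ` from `exists_change`. Minimal: a closed nonempty `ψ`-invariant set is
`φ`-invariant, as `φ t x = ψ (T x t) x` (see `MinimalFlow`, `IsInvariant`). Commutation: let `u` be a time, `t` with
`T x t = u` (`T_surj`), then `ψ u x = φ t x`; `g b (φ t x) = φ s (g b x) = ψ (T (g b x) s) (g b x) = ψ u (g b x)`. -/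
theorem exists_commuting {φ : Flow ℝ S3} (hm : MinimalFlow φ) (g : ℝ → S3 → S3)
    (hg : Continuous fun p : ℝ × S3 => g p.1 p.2) (hi : ∀ a, Function.Injective (g a))
    (hp : ∀ a, PreservesOrbits φ (g a)) (hadd : ∀ a b x, g (a + b) x = g a (g b x))
    (hper : ∀ a x, g (a + 2 * Real.pi) x = g a x) :
    ∃ ψ : Flow ℝ S3, MinimalFlow ψ ∧ ∀ b (u : ℝ) x, g b (ψ u x) = ψ u (g b x) := by
  obtain ⟨T, hT, hpos, hTadd, hinv⟩ := exists_T hm g hg hi hp hadd hper
  obtain ⟨ψ, hψ⟩ := exists_change φ T hT hpos hTadd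
  have hs := T_surj hT hpos hTadd
  refine ⟨ψ, fun s hs1 hs2 hs3 => hm s hs1 hs2 ?_, fun b u x => ?_⟩
  · intro t x hx
    have h1 : φ.toFun t x = ψ.toFun (T x t) x := (hψ x t).symm
    rw [h1]
    exact hs3 (T x t) hx
  · obtain ⟨t, ht⟩ := (hs x).2.1 u
    obtain ⟨s, h1, h2⟩ := hinv b x t
    rw [← ht, hψ, h1, ← h2, hψ]

end H72O
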